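import Pool.Agent.Lib.MP_651af7_nt.Hy.Inj
import Pool.Agent.Lib.MP_651af7_nt.Ds.Main

/-! The height of a subscheme of codimension two. -/

namespace Pool.Agent.Lib.MP_651af7_nt.Hy

open MvPolynomial Module Av Bx Ds Height NumberField

set_option linter.unusedSectionVars false

variable {k : Type} [Field k] [NumberField k] {ι κ α : Type} [Fintype ι] [Fintype κ] [Fintype α]
  {r g e : ℕ} {I : Ideal (MvPolynomial κ k)} {Y : α → MvPolynomial κ k} {ε : ℝ}

/-- With `Ψ t (y) = s t • x` the family `aeval (Ψ t) (Y j)` has the value `s t ^ e * Y j (x)`;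
`logHeight_fun_mul_eq`, `logHeight_pow`, `logHeight_eval_le'` (see `hK_le` in `Bx/Wr`). If `e = 0`
there is nothing to prove but `0 ≤ logHeight`. -/
theorem hY_le {T : Type} [Fintype T] {d : ℕ} {Ψ : T → κ → MvPolynomial ι k}
    (hΨ : ∀ t i, (Ψ t i).IsHomogeneous d) (hY : ∀ j, (Y j).IsHomogeneous e) : ∃ C : ℝ,
      ∀ (y : ι → k) (x : κ → k) (s : T → k), x ≠ 0 → (∀ t i, eval y (Ψ t i) = s t * x i) →
      (fun p : T × α => eval y (aeval (Ψ p.1) (Y p.2))) ≠ 0 → (fun j => eval x (Y j)) ≠ 0 ∧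
        e * logHeight x - logHeight (fun j => eval x (Y j)) ≤ ((d * e : ℕ) : ℝ) * logHeight y -
          logHeight (fun p : T × α => eval y (aeval (Ψ p.1) (Y p.2))) + C := by
  obtain ⟨C, hC⟩ := logHeight_eval_le' (p := fun p : T × κ => Ψ p.1 p.2) fun p => hΨ p.1 p.2
  refine ⟨e * C, fun y x s hx h h0 => ?_⟩
  have h1 : (fun p : T × α => eval y (aeval (Ψ p.1) (Y p.2))) =
      fun p => (s ^ e) p.1 * eval x (Y p.2) := funext fun p => loc_eval (hY p.2) (h p.1)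
  obtain ⟨p, hp⟩ := Function.ne_iff.1 (h1 ▸ h0)
  have h2 : (fun j => eval x (Y j)) ≠ 0 := Function.ne_iff.2 ⟨p.2, right_ne_zero_of_mul hp⟩
  refine ⟨h2, ?_⟩
  rw [h1, logHeight_fun_mul_eq (Function.ne_iff.2 ⟨p.1, left_ne_zero_of_mul hp⟩) h2, logHeight_pow]
  rcases Nat.eq_zero_or_pos e with rfl | he
  · simp
  have h3 := hC y
  rw [show (fun p : T × κ => eval y (Ψ p.1 p.2)) = fun p => s p.1 * x p.2 from
    funext fun p => h p.1 p.2, logHeight_fun_mul_eq (Function.ne_iff.2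
      ⟨p.1, ne_zero_pow he.ne' (left_ne_zero_of_mul hp)⟩) hx] at h3
  have h4 := mul_le_mul_of_nonneg_left h3 (Nat.cast_nonneg e)
  push_cast
  linarith

theorem part (A : AV k ι) (hI : Var I) (hs : Smooth I g) (hb : Birat I A.I)
    (hY : ∀ j, (Y j).IsHomogeneous e) (hc : Cod I Y g) (hε : 0 < ε) :
    ∃ (Θ : MvPolynomial κ k) (t : ℕ) (C : ℝ), Θ.IsHomogeneous t ∧ Θ ∉ I ∧ ∀ x : κ → k, x ≠ 0 →
      (∀ P ∈ I, eval x P = 0) → eval x Θ ≠ 0 → (fun j => eval x (Y j)) ≠ 0 ∧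
        e * logHeight x - logHeight (fun j => eval x (Y j)) ≤ ε * logHeight x + C := by
  obtain ⟨φ, ψ, h, h'⟩ := hb
  obtain ⟨r, σ, hσ⟩ := exists_lieBasis A
  obtain rfl := dim_eq' hσ hI hs h h'
  obtain ⟨i, hi⟩ := h.ne
  rcases Nat.eq_zero_or_pos g with rfl | hr
  · obtain ⟨j, hj⟩ : ∃ j, aeval (fun _ => (0 : k)) (Y j) ≠ 0 := by
      by_contra! hn
      obtain ⟨x, hx, -⟩ := exists_pt hI.isPrime (H := 1)
        fun e => hI.isPrime.ne_top ((Ideal.eq_top_iff_one _).2 e)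
      refine hc (AlgebraicClosure k) (fun a => 0 * x a) (zero_mul_of_hom hI.hom hx 0) (fun j => ?_)
        Fin.elim0 (algebraicIndependent_empty_type_iff.2 (algebraMap k _).injective)
      simpa only [hn, map_zero, zero_mul] using
        aeval_alg (B := AlgebraicClosure k) (fun _ => (0 : k)) (Y j)
    have h1 : ∀ x : κ → k, aeval (fun _ => (0 : k)) (Y j) = 0 ^ e * eval x (Y j) := fun x => by
      simpa only [zero_mul, aeval_eq_eval x] using aeval_mul_of_hom (hY j) 0 x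
    obtain rfl : e = 0 := not_not.1 fun h0 => hj (by rw [h1 0, zero_pow h0, zero_mul])
    refine ⟨1, 0, 0, isHomogeneous_one _ _,
      fun e => hI.isPrime.ne_top ((Ideal.eq_top_iff_one _).2 e), fun x _ _ _ =>
        ⟨Function.ne_iff.2 ⟨j, right_ne_zero_of_mul (h1 x ▸ hj)⟩, ?_⟩⟩
    have h2 := mul_nonneg hε.le (logHeight_nonneg x)
    have h3 := logHeight_nonneg fun j => eval x (Y j)
    push_cast
    linarith
  obtain ⟨a, ha⟩ := h.hom
  obtain ⟨b, hb⟩ := h'.hom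
  obtain ⟨j, hj⟩ := h'.ne
  obtain ⟨T, _, d, Ψ, hΨ, h2⟩ := exists_rep hσ hr hb ⟨i, fun e => hi (h.map _ e)⟩
  have hε' : 0 < ε / (a + 1) := by positivity
  obtain ⟨Θ, t, C₁, t1, t2, t3⟩ := A.gcd_part (fun p : T × α => aeval (Ψ p.1) (Y p.2))
    (fun p => (hY p.2).aeval _ (hΨ p.1).hom) (height_pull hσ hr hI hs h h' hc hΨ h2) hε'
  obtain ⟨C₂, h3⟩ := hY_le (fun t => (hΨ t).hom) hY
  obtain ⟨C₃, h5⟩ := logHeight_eval_le' ha
  have h4 := t1.mul ((ha j).aeval ψ hb)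
  refine ⟨aeval φ (Θ * aeval ψ (φ j)) * aeval φ (ψ i), _, C₁ + C₂ + ε / (a + 1) * C₃,
    (h4.aeval φ ha).mul ((hb i).aeval φ ha), fun e => (hI.isPrime.mem_or_mem e).elim
      (h'.pull A.tr_prime h4 fun e' => (A.tr_prime.mem_or_mem e').elim t2 hj) hi,
    fun x x0 xz xΘ => ?_⟩
  rw [← aeval_eq_eval, map_mul, trans_aev, map_mul, mul_ne_zero_iff, mul_ne_zero_iff] at xΘ
  have xz' : ∀ P ∈ I, aeval x P = 0 := xz
  obtain ⟨c, hc0, e1⟩ := h.pt x0 xz' xΘ.2
  have y0 := (h.rank hI.hom A.hom h' x0 xz' xΘ.2 xΘ.1.2).1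
  have yz := h.zero xz'
  obtain ⟨l, hl⟩ := Function.ne_iff.1 x0
  choose s e2 _ using fun t => (hΨ t).val yz
    (Function.ne_iff.2 ⟨l, (e1 l).trans_ne (mul_ne_zero hc0 hl)⟩)
  obtain ⟨e3, e4⟩ := t3 _ y0 yz xΘ.1.1
  obtain ⟨e5, e6⟩ := h3 _ x (fun t => s t * c) x0
    (fun t i => (e2 t i).trans (by rw [e1, mul_assoc])) e3
  have e7 := mul_le_mul_of_nonneg_left (h5 x) hε'.le
  have e8 : ε / (a + 1) * (a * logHeight x) ≤ ε * logHeight x := by
    rw [← mul_assoc]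
    refine mul_le_mul_of_nonneg_right ?_ (logHeight_nonneg x)
    rw [div_mul_eq_mul_div, div_le_iff₀ (by positivity)]
    nlinarith
  simp only [aeval_eq_eval x] at e4 e6
  exact ⟨e5, by linarith⟩

theorem part_model (hI : Var I) (hs : Smooth I g)
    {J : Ideal (MvPolynomial ι (AlgebraicClosure k))} {A : Type} [AddCommGroup A]
    {co : A → ι → AlgebraicClosure k} (hJ : Pts J co) (hm : HasModel co)
    (hb : Birat (I.map (MvPolynomial.map (algebraMap k (AlgebraicClosure k)))) J)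
    (hY : ∀ j, (Y j).IsHomogeneous e) (hc : Cod I Y g) (hε : 0 < ε) :
    ∃ (Θ : MvPolynomial κ k) (t : ℕ) (C : ℝ), Θ.IsHomogeneous t ∧ Θ ∉ I ∧ ∀ x : κ → k, x ≠ 0 →
      (∀ P ∈ I, eval x P = 0) → eval x Θ ≠ 0 → (fun j => eval x (Y j)) ≠ 0 ∧
        e * logHeight x - logHeight (fun j => eval x (Y j)) ≤ ε * logHeight x + C := by
  obtain ⟨m, J', co', Φ, h1, h2, h3, h4⟩ := hm
  have : Nonempty A := ⟨0⟩
  obtain ⟨K, hK', B, hB⟩ := descend (k := k) h1 h2
    (hb.trans hI.prime hJ.prime h1.prime hJ.exists_X (hJ.birat h1 h3 h4))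
  have : NumberField K := NumberField.of_module_finite k K
  obtain ⟨Θ, t, C, t1, t2, t3⟩ := part B (var_up hI) (smooth_up hs) hB
    (Y := fun j => MvPolynomial.map (algebraMap k K) (Y j)) (fun j => (hY j).map _)
    (fun E _ _ x hx hx' j hj => by
      let _ : Algebra k E := ((algebraMap K E).comp (algebraMap k K)).toAlgebra
      have : IsScalarTower k K E := .of_algebraMap_eq fun _ => rfl
      exact hc E x (zero_map.1 fun P hP => hx P (map_le_up hP))
        (fun j => (aeval_map_algebraMap K x (Y j)).symm.trans (hx' j)) j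
        (hj.restrictScalars (algebraMap k K).injective)) hε
  obtain ⟨Θ₀, u1, u2, u3⟩ := exists_theta (I := I) t1 fun h => t2 (map_le_up h)
  have hn : (0 : ℝ) < finrank k K := Nat.cast_pos.2 finrank_pos
  refine ⟨Θ₀, t, C / finrank k K, u1, u2, fun x x0 xz xΘ => ?_⟩
  have e1 : (fun j => eval (fun a => algebraMap k K (x a))
      (MvPolynomial.map (algebraMap k K) (Y j))) = fun j => algebraMap k K (eval x (Y j)) :=
    funext fun j => by rw [eval_map, ← aeval_def, aeval_alg, aeval_eq_eval]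
  obtain ⟨e2, e3⟩ := t3 _ (fun h => x0 (funext fun a => (map_eq_zero _).1 (congrFun h a)))
    (zero_up xz) (u3 x xΘ)
  rw [e1] at e2 e3
  refine ⟨fun h => e2 (funext fun j => (congrArg _ (congrFun h j)).trans (map_zero _)), ?_⟩
  rw [MP_651af7_nt.Final.logHeight_algebraMap, MP_651af7_nt.Final.logHeight_algebraMap] at e3
  refine le_of_mul_le_mul_left ?_ hn
  rw [mul_add _ (ε * _), mul_div_cancel₀ _ hn.ne']
  linarith

/-- The two inequalities together, off the product of the two forms. -/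
theorem of_model (hI : Var I) (hs : Smooth I g)
    {J : Ideal (MvPolynomial ι (AlgebraicClosure k))} {A : Type} [AddCommGroup A]
    {co : A → ι → AlgebraicClosure k} (hJ : Pts J co) (hm : HasModel co)
    (hb : Birat (I.map (MvPolynomial.map (algebraMap k (AlgebraicClosure k)))) J) {d : ℕ}
    (hY : ∀ j, (Y j).IsHomogeneous d)
    (hc : 2 ≤ ((Ideal.span (Set.range Y)).map (Ideal.Quotient.mk I)).height) (hε : 0 < ε) :
    ∃ (Θ : MvPolynomial κ k) (t : ℕ), Θ.IsHomogeneous t ∧ Θ ∉ I ∧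
      ∀ (m e : ℕ) (D : Fin m → MvPolynomial κ k) (S : Finset (FinitePlace k)),
      (∀ j, (D j).IsHomogeneous e) → ∃ C : ℝ, ∀ x : κ → k, x ≠ 0 → (∀ P ∈ I, eval x P = 0) →
        eval x Θ ≠ 0 → (fun j => eval x (D j)) ≠ 0 → (fun j => eval x (Y j)) ≠ 0 ∧
        finrank k (tsp I x) = g + 1 ∧
        ∀ β : Fin (g + 1) → κ → k, LinearIndependent k β → (∀ l, β l ∈ tsp I x) →
        (∑ w : InfinitePlace k, w.mult * lam w.1 D e x + ∑ w ∈ S, lam w.1 D e x) + hK x β +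
          (d * logHeight x - logHeight fun j => eval x (Y j)) ≤ ε * logHeight x + C := by
  obtain ⟨Θ, t, t1, t2, t3⟩ := Ds.of_model hI hs hJ hm hb (half_pos hε)
  obtain ⟨Θ', t', C', u1, u2, u3⟩ := part_model hI hs hJ hm hb hY
    (cod_of_height hI.isPrime hs hc) (half_pos hε)
  refine ⟨Θ * Θ', _, t1.mul u1, fun e => (hI.isPrime.mem_or_mem e).elim t2 u2,
    fun m e D S hD => ?_⟩
  obtain ⟨C, hC⟩ := t3 m e D S hD
  refine ⟨C + C', fun x x0 xz xΘ xD => ?_⟩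
  rw [map_mul, mul_ne_zero_iff] at xΘ
  obtain ⟨e1, e2⟩ := hC x x0 xz xΘ.1 xD
  obtain ⟨e3, e4⟩ := u3 x x0 xz xΘ.2
  refine ⟨e3, e1, fun β b1 b2 => ?_⟩
  linarith [e2 β b1 b2]

end Pool.Agent.Lib.MP_651af7_nt.Hy
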