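import Pool.Agent.Lib.MP_651af7_nt.Bx.Dim
import Pool.Agent.Lib.MP_651af7_nt.Av.Tr
import Pool.Agent.Lib.MP_651af7_nt.Cu.Plc

/-! Algebraic independence and an extension theorem. -/

namespace Pool.Agent.Lib.MP_651af7_nt.Hy

open MvPolynomial Module Av Bx

set_option linter.unusedSectionVars false

variable {k : Type} [Field k]

/-- `b` is transcendental over the algebra generated by the `z t`: otherwise `b` divides a non-zero
element of it (`IsAlgebraic.exists_nonzero_dvd`), on which `f` is injective.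
`AlgebraicIndependent.option_iff`, `finSuccEquiv`. -/
theorem indep_cons {B C : Type} [CommRing B] [IsDomain B] [Algebra k B] [CommRing C] [Algebra k C]
    (f : B →ₐ[k] C) {b : B} (hb : b ≠ 0) (hf : f b = 0) {n : ℕ} {z : Fin n → B}
    (hz : AlgebraicIndependent k fun t => f (z t)) :
    ∃ z' : Fin (n + 1) → B, AlgebraicIndependent k z' := by
  have h0 : AlgebraicIndependent k z := AlgebraicIndependent.of_comp f hz
  have h1 : Transcendental (Algebra.adjoin k (Set.range z)) b := by
    intro ha
    obtain ⟨⟨r, hr⟩, h2, c, h3⟩ := ha.exists_nonzero_dvd (mem_nonZeroDivisors_of_ne_zero hb)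
    have hr' := hr
    rw [Algebra.adjoin_range_eq_range_aeval] at hr'
    obtain ⟨P, rfl⟩ := hr'
    have h4 : aeval z P = b * c := h3
    have h5 : aeval (fun t => f (z t)) P = 0 := by
      rw [← comp_aeval_apply, h4, map_mul, hf, zero_mul]
    have h6 : P = 0 := hz.eq_zero_of_aeval_eq_zero P h5
    exact h2 (Subtype.ext (by simp [h6]))
  exact ⟨_, (AlgebraicIndependent.option_iff.2 ⟨h0, h1⟩).comp _ (_root_.finSuccEquiv n).injective⟩

/-- There is a prime strictly between `⊥` and `𝔮` (`Ideal.height_le_iff`); `indep_cons` twice, first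
for `Ideal.Quotient.factorₐ`. -/
theorem indep_add_two {B : Type} [CommRing B] [IsDomain B] [Algebra k B] (𝔮 : Ideal B) [𝔮.IsPrime]
    (h : 2 ≤ 𝔮.height) {n : ℕ} {z : Fin n → B}
    (hz : AlgebraicIndependent k fun t => Ideal.Quotient.mk 𝔮 (z t)) :
    ∃ z' : Fin (n + 2) → B, AlgebraicIndependent k z' := by
  have h1 : ¬ 𝔮.height ≤ (1 : ℕ) := fun e => absurd (h.trans e) (by norm_num)
  rw [Ideal.height_le_iff] at h1
  push Not at h1
  obtain ⟨𝔭, hp, hlt, h2⟩ := h1
  have h3 : 𝔭 ≠ ⊥ := by
    rintro rfl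
    simp at h2
  obtain ⟨b, hb, hb'⟩ := SetLike.exists_of_lt hlt
  obtain ⟨z₁, h4⟩ := indep_cons (Ideal.Quotient.factorₐ k hlt.le) (b := Ideal.Quotient.mk 𝔭 b)
    (fun e => hb' (Ideal.Quotient.eq_zero_iff_mem.1 e)) (Ideal.Quotient.eq_zero_iff_mem.2 hb)
    (z := fun t => Ideal.Quotient.mk 𝔭 (z t)) hz
  choose z₂ h5 using fun t => Ideal.Quotient.mk_surjective (z₁ t)
  obtain ⟨c, hc, hc'⟩ := Submodule.exists_mem_ne_zero_of_ne_bot h3
  refine indep_cons (Ideal.Quotient.mkₐ k 𝔭) hc' (Ideal.Quotient.eq_zero_iff_mem.2 hc) (z := z₂) ?_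
  have e : (fun t => Ideal.Quotient.mkₐ k 𝔭 (z₂ t)) = z₁ := funext h5
  rwa [e]

/-- `E` is algebraic over `K₀ = IntermediateField.adjoin k (range x)` (`exists_derivation` over
`K₀`, `Derivation.restrictScalars`). So the family `x ∘ j` of `exists_td_basis_range` is a
transcendence basis of `E` and has at least `n` members. -/
theorem indep_of_der [CharZero k] {E κ : Type} [Field E] [Algebra k E] [Finite κ] {x : κ → E}
    (h : ∀ D : Derivation k E E, (∀ a, D (x a) = 0) → D = 0) {n : ℕ} {z : Fin n → E}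
    (hz : AlgebraicIndependent k z) :
    ∃ j : Fin n → κ, AlgebraicIndependent k fun t => x (j t) := by
  have h1 : ∀ a : E, IsAlgebraic (Algebra.adjoin k (Set.range x)) a := by
    intro a
    rw [← IntermediateField.isAlgebraic_adjoin_iff]
    by_contra ha
    have : CharZero (IntermediateField.adjoin k (Set.range x)) :=
      charZero_of_injective_algebraMap (algebraMap k _).injective
    obtain ⟨D, hD⟩ := exists_derivation (K := IntermediateField.adjoin k (Set.range x))
      (t := fun _ : Unit => a) (algebraicIndependent_unique_type_iff.2 ha) fun _ => 1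
    have h2 := h (D.restrictScalars k) fun i =>
      D.map_algebraMap ⟨x i, IntermediateField.subset_adjoin _ _ ⟨i, rfl⟩⟩
    have h3 : D a = 0 := DFunLike.congr_fun h2 a
    exact one_ne_zero ((hD ()).symm.trans h3)
  obtain ⟨σ, j, hj, h2, h3, -⟩ := exists_td_basis_range k x
  have h4 := (card_le_td hz (S := Set.univ) fun _ => trivial).trans
    (td_le_of_isAlgebraic fun a _ => h1 a)
  have := Finite.of_injective j hj
  have := Fintype.ofFinite σ
  rw [← h3, ENat.card_eq_coe_fintype_card, ENat.card_eq_coe_fintype_card, Nat.cast_le] at h4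
  obtain ⟨e⟩ := Function.Embedding.nonempty_of_card_le h4
  exact ⟨j ∘ e, h2.comp e e.injective⟩

/-- Nullstellensatz: `vanishingIdeal_zeroLocus_eq_radical (K := AlgebraicClosure k)`. -/
theorem exists_pt {κ : Type} [Finite κ] {I : Ideal (MvPolynomial κ k)} (hI : I.IsPrime)
    {H : MvPolynomial κ k} (hH : H ∉ I) :
    ∃ x : κ → AlgebraicClosure k, (∀ P ∈ I, aeval x P = 0) ∧ aeval x H ≠ 0 := by
  by_contra hc
  refine hH ?_
  rw [← hI.radical, ← vanishingIdeal_zeroLocus_eq_radical (K := AlgebraicClosure k),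
    mem_vanishingIdeal_iff]
  exact fun x hx => by_contra fun h => hc ⟨x, hx, h⟩

/-- `B = Localization.Away (Ideal.Quotient.mk I Δ)`. -/
theorem exists_away {κ : Type} [Finite κ] {I : Ideal (MvPolynomial κ k)} (hI : I.IsPrime)
    {Δ : MvPolynomial κ k} (hΔ : Δ ∉ I) : ∃ (B : Type) (_ : CommRing B) (_ : IsDomain B)
      (_ : Algebra k B) (_ : Algebra.FiniteType k B) (x : κ → B), (∀ P, aeval x P = 0 ↔ P ∈ I) ∧
      IsUnit (aeval x Δ) ∧
      (∀ t, ∃ P Q : MvPolynomial κ k, IsUnit (aeval x Q) ∧ t * aeval x Q = aeval x P) ∧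
      ∀ (R : Type) [CommRing R] [Algebra k R] (y : κ → R), (∀ P ∈ I, aeval y P = 0) →
        IsUnit (aeval y Δ) → ∃ ρ : B →ₐ[k] R, ∀ a, ρ (x a) = y a := by
  set d := Ideal.Quotient.mk I Δ
  have hd : Submonoid.powers d ≤ nonZeroDivisors _ := powers_le_nonZeroDivisors_of_noZeroDivisors
    fun h => hΔ (Ideal.Quotient.eq_zero_iff_mem.1 h)
  let x : κ → Localization.Away d := fun a => algebraMap _ _ (Ideal.Quotient.mk I (X a))
  have hx : ∀ P, aeval x P = algebraMap _ (Localization.Away d) (Ideal.Quotient.mk I P) := fun P =>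
    DFunLike.congr_fun (MvPolynomial.algHom_ext (f := aeval x)
      (g := (IsScalarTower.toAlgHom k _ (Localization.Away d)).comp (Ideal.Quotient.mkₐ k I))
      fun a => aeval_X _ _) P
  refine ⟨Localization.Away d, inferInstance, IsLocalization.isDomain_localization hd,
    inferInstance, .trans (S := MvPolynomial κ k ⧸ I) inferInstance inferInstance, x,
    fun P => ?_, ?_, fun t => ?_, fun R _ _ y hy hu => ?_⟩
  · rw [hx, map_eq_zero_iff _ (IsLocalization.injective _ hd), Ideal.Quotient.eq_zero_iff_mem]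
  · exact hx Δ ▸ IsLocalization.Away.algebraMap_isUnit d
  · obtain ⟨⟨p, q⟩, h⟩ := IsLocalization.surj (Submonoid.powers d) t
    obtain ⟨P, rfl⟩ := Ideal.Quotient.mk_surjective p
    obtain ⟨Q, hQ⟩ := Ideal.Quotient.mk_surjective q.1
    exact ⟨P, Q, by rw [hx, hQ]; exact IsLocalization.map_units _ q, by rw [hx, hx, hQ, h]⟩
  · refine ⟨IsLocalization.Away.liftAlgHom d (f := Ideal.Quotient.liftₐ I (aeval y) hy) hu,
      fun a => ?_⟩
    exact (IsLocalization.Away.lift_eq d (g := (Ideal.Quotient.liftₐ I (aeval y) hy).toRingHom) hu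
      _).trans (aeval_X y a)

theorem alg3_mem {P L : Type} [CommRing P] [IsDomain P] [UniqueFactorizationMonoid P] [Field L]
    [Algebra P L] [IsFractionRing P L] {c : L}
    (h : ∀ p : P, Prime p → ∃ a b : P, ¬ p ∣ b ∧ algebraMap P L b * c = algebraMap P L a) :
    c ∈ Set.range (algebraMap P L) := by
  have hc := IsFractionRing.mk'_num_den P c
  have hs := IsLocalization.mk'_spec L (IsFractionRing.num P c) (IsFractionRing.den P c)
  rw [hc] at hs
  by_cases hu : IsUnit (IsFractionRing.den P c : P)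
  · obtain ⟨u, hu⟩ := hu.exists_right_inv
    refine ⟨IsFractionRing.num P c * u, ?_⟩
    rw [map_mul, ← hs, mul_assoc, ← map_mul, hu, map_one, mul_one]
  obtain ⟨p, hp, hd⟩ := WfDvdMonoid.exists_irreducible_factor hu
    (nonZeroDivisors.ne_zero (IsFractionRing.den P c).2)
  obtain ⟨a, b, hb, hab⟩ := h p hp.prime
  have h1 : b * IsFractionRing.num P c = a * IsFractionRing.den P c := by
    apply IsFractionRing.injective P L
    rw [map_mul, map_mul, ← hs, ← hab, mul_assoc]
  rcases hp.prime.dvd_or_dvd (h1 ▸ hd.mul_left a) with h2 | h2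
  · exact absurd h2 hb
  · exact absurd (IsFractionRing.num_den_reduced P c h2 hd) hp.not_isUnit

theorem alg3_val {P B D F : Type} [CommRing P] [CommRing B] [CommRing D] [Field F] [Algebra P B]
    [Algebra B F] [Algebra P F] [IsScalarTower P B F] [Algebra P D] [Algebra D F]
    [IsScalarTower P D F] [Algebra.IsIntegral P B] {I : Ideal P}
    (hI : ∀ a, a ∉ I → IsUnit (algebraMap P D a)) {f : F}
    (h : ∀ (𝔮 : Ideal B) [𝔮.IsPrime], 𝔮.under P ≤ I →
      ∃ a b : B, b ∉ 𝔮 ∧ algebraMap B F b * f = algebraMap B F a) : IsIntegral D f := by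
  refine Cu.isIntegral_of_val' fun V hV => ?_
  have hP : Cu.Cont P V := fun r => by
    rw [IsScalarTower.algebraMap_apply P D F]
    exact hV _
  have hB : Cu.Cont B V := fun r =>
    Cu.mem_of_isIntegral hP (Algebra.IsIntegral.isIntegral (R := P) r).algebraMap
  let φ : B →+* V := (algebraMap B F).codRestrict V hB
  let ψ : D →+* V := (algebraMap D F).codRestrict V hV
  obtain ⟨a, b, hb, hab⟩ := h ((IsLocalRing.maximalIdeal V).comap φ) fun r hr => by
    by_contra hn
    have h1 : φ (algebraMap P B r) = ψ (algebraMap P D r) := Subtype.ext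
      ((IsScalarTower.algebraMap_apply P B F r).symm.trans (IsScalarTower.algebraMap_apply P D F r))
    have h2 : φ (algebraMap P B r) ∈ IsLocalRing.maximalIdeal V := hr
    rw [h1] at h2
    exact h2 ((hI r hn).map ψ)
  have hu : IsUnit (φ b) := by
    by_contra hn
    exact hb hn
  obtain ⟨u, hu⟩ := hu.exists_left_inv
  have h3 : (u : F) * algebraMap B F b = 1 := congrArg Subtype.val hu
  have h4 : f = u * algebraMap B F a := by
    rw [← hab, ← mul_assoc, h3, one_mul]
  rw [h4]
  exact V.mul_mem _ _ u.2 (hB a)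

theorem alg3_main {P B F : Type} [CommRing P] [IsDomain P] [UniqueFactorizationMonoid P]
    [CommRing B] [IsDomain B] [Algebra P B] [FaithfulSMul P B] [Algebra.IsIntegral P B] [Field F]
    [Algebra B F] [IsFractionRing B F] {f : F}
    (h : ∀ p : P, Prime p → ∀ (𝔮 : Ideal B) [𝔮.IsPrime], 𝔮.under P ≤ Ideal.span {p} →
      ∃ a b : B, b ∉ 𝔮 ∧ algebraMap B F b * f = algebraMap B F a) : IsIntegral B f := by
  let _ : Algebra P F := ((algebraMap B F).comp (algebraMap P B)).toAlgebra
  have : IsScalarTower P B F := IsScalarTower.of_algebraMap_eq fun _ => rfl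
  have : FaithfulSMul P F := (faithfulSMul_iff_algebraMap_injective _ _).2
    ((IsFractionRing.injective B F).comp (FaithfulSMul.algebraMap_injective P B))
  let L := FractionRing P
  let _ : Algebra L F := FractionRing.liftAlgebra P F
  have : IsScalarTower P L F := FractionRing.isScalarTower_liftAlgebra P F
  have : Algebra.IsAlgebraic B F := IsLocalization.isAlgebraic F (nonZeroDivisors B)
  have : Algebra.IsAlgebraic P F := Algebra.IsAlgebraic.trans P B F
  have hf : IsIntegral L f :=
    ((Algebra.IsAlgebraic.isAlgebraic (R := P) f).extendScalars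
      (IsFractionRing.injective P L)).isIntegral
  have hc : ∀ i, (minpoly L f).coeff i ∈ Set.range (algebraMap P L) := fun i =>
    alg3_mem fun p hp => by
      have : (Ideal.span {p}).IsPrime := (Ideal.span_singleton_prime hp.ne_zero).2 hp
      have hS := (Ideal.span {p}).primeCompl_le_nonZeroDivisors
      let D := Localization.subalgebra L (Ideal.span {p}).primeCompl hS
      have : IsIntegrallyClosed D := isIntegrallyClosed_of_isLocalization D _ hS
      have h1 : IsIntegral D f := alg3_val (I := Ideal.span {p}) (fun a ha =>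
        IsLocalization.map_units D (⟨a, ha⟩ : (Ideal.span {p}).primeCompl)) (h p hp)
      rw [minpoly.isIntegrallyClosed_eq_field_fractions' L h1, Polynomial.coeff_map]
      obtain ⟨a, b, hb, hab⟩ := ((minpoly D f).coeff i).2
      refine ⟨a, b, fun hd => hb (Ideal.mem_span_singleton.2 hd), ?_⟩
      have h2 : algebraMap D L ((minpoly D f).coeff i) = IsLocalization.mk' L a ⟨b, hS hb⟩ := hab
      rw [h2]
      exact IsLocalization.mk'_spec' L a ⟨b, hS hb⟩
  obtain ⟨q, hq, -, hm⟩ := Polynomial.lifts_and_degree_eq_and_monic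
    ((Polynomial.lifts_iff_coeff_lifts _).2 hc) (minpoly.monic hf)
  have h3 : IsIntegral P f := by
    refine ⟨q, hm, ?_⟩
    rw [← Polynomial.aeval_def, ← Polynomial.aeval_map_algebraMap L, hq, minpoly.aeval]
  exact h3.tower_top

/-- Noether normalisation `P = k[t_0, …, t_s] ⊆ B`, `n ≤ s`, as in `ht_indep`; `L = FractionRing P`.
Let `p` be a prime element of `P` and `D` the localisation at the ideal of `p`
(`Localization.subalgebra L (span {p}).primeCompl _`, integrally closed with fraction field `L`).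
A valuation ring `V` of `F` that contains `D` contains `B` (`Cu.mem_of_isIntegral`); its centre `𝔮`
on `B` meets `P` inside the ideal of `p`, so `s` of the `t_i` are independent modulo `𝔮` (`ht_poly`,
`Ideal.height_span_singleton_le_one` or the like) and `f ∈ V`. So `f` is integral over `D`
(`Cu.isIntegral_of_val'`) and the coefficients of `minpoly L f` lie in `D`
(`minpoly.isIntegrallyClosed_eq_field_fractions'`). As this holds for all `p`, they lie in `P`
(`IsFractionRing.den`, `IsFractionRing.num_den_reduced`). -/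
theorem hartogs {B F : Type} [CommRing B] [IsDomain B] [Algebra k B] [Algebra.FiniteType k B]
    [Field F] [Algebra B F] [IsFractionRing B F] {n : ℕ} {z : Fin (n + 1) → B}
    (hz : AlgebraicIndependent k z) {f : F} (h : ∀ (𝔮 : Ideal B) [𝔮.IsPrime] (z' : Fin n → B),
      (AlgebraicIndependent k fun t => Ideal.Quotient.mk 𝔮 (z' t)) →
        ∃ a b : B, b ∉ 𝔮 ∧ algebraMap B F b * f = algebraMap B F a) : IsIntegral B f := by
  obtain ⟨s, g, hg, hi⟩ := exists_integral_inj_algHom_of_fg k B
  let _ : Algebra (MvPolynomial (Fin s) k) B := g.toRingHom.toAlgebra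
  have : IsScalarTower k (MvPolynomial (Fin s) k) B :=
    IsScalarTower.of_algebraMap_eq fun a => (g.commutes a).symm
  have : Algebra.IsIntegral (MvPolynomial (Fin s) k) B := ⟨hi⟩
  have : FaithfulSMul (MvPolynomial (Fin s) k) B :=
    (faithfulSMul_iff_algebraMap_injective _ _).2 hg
  have hs : n + 1 ≤ s := by
    have h1 := hz.cardinalMk_le_trdeg
    rw [← trdeg_add_eq k (MvPolynomial (Fin s) k), MvPolynomial.trdeg_of_isDomain,
      trdeg_eq_zero (R := MvPolynomial (Fin s) k)] at h1
    simp only [Cardinal.mk_fin, Cardinal.lift_natCast, add_zero] at h1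
    exact_mod_cast h1
  obtain ⟨s, rfl⟩ : ∃ s', s = s' + 1 := ⟨s - 1, by omega⟩
  refine alg3_main (P := MvPolynomial (Fin (s + 1)) k) fun π hπ 𝔮 _ hle => ?_
  set p := 𝔮.under (MvPolynomial (Fin (s + 1)) k) with hp
  obtain ⟨j, hj⟩ := ht_poly p
    ((Ideal.height_mono hle).trans (Ideal.height_span_singleton_le_one hπ.not_isUnit))
  let ι : Fin n → Fin s := Fin.castLE (by omega)
  exact h 𝔮 (fun t => g (X (j (ι t)))) ((hj.comp ι (Fin.castLE_injective _)).map'
    (f := Ideal.quotientMapₐ 𝔮 g (le_of_eq hp))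
    (Ideal.quotientMap_injective' (H := le_of_eq hp) (le_of_eq hp.symm)))

end Pool.Agent.Lib.MP_651af7_nt.Hy
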