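import Pool.Agent.Lib.MP_651af7_nt.Hy.Alg
import Pool.Agent.Lib.MP_651af7_nt.Bx.Wr

/-! Local coordinates at a smooth point. -/

namespace Pool.Agent.Lib.MP_651af7_nt.Hy

open MvPolynomial Module Av Bx

set_option linter.unusedSectionVars false

variable {k : Type} [Field k] [CharZero k] {κ α : Type} [Fintype κ] {I : Ideal (MvPolynomial κ k)}
  {E : Type} [Field E] [Algebra k E] {x : κ → E} {n g : ℕ} {S : Fin n → κ} {Δ : MvPolynomial κ k}
  {c : κ → Fin n → MvPolynomial κ k}

/-- Where `Δ ≠ 0` a tangent vector is given by its coordinates `S i`. -/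
def Chart (I : Ideal (MvPolynomial κ k)) (S : Fin n → κ) (Δ : MvPolynomial κ k)
    (c : κ → Fin n → MvPolynomial κ k) : Prop :=
  ∀ (R : Type) [CommRing R] [Algebra k R] (x w : κ → R), (∀ P ∈ I, dP x w P = 0) →
    ∀ a, aeval x Δ * w a = ∑ i, aeval x (c a i) * w (S i)

/-- No common zero of `I` and `Y` has `g` algebraically independent coordinates. -/
def Cod (I : Ideal (MvPolynomial κ k)) (Y : α → MvPolynomial κ k) (g : ℕ) : Prop :=
  ∀ (E : Type) [Field E] [Algebra k E] (x : κ → E), (∀ P ∈ I, aeval x P = 0) →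
    (∀ j, aeval x (Y j) = 0) → ∀ j : Fin g → κ, ¬AlgebraicIndependent k fun t => x (j t)

/-- Some coordinates `S i` determine a tangent vector. -/
theorem chart1_coord (h : finrank E (tsp I x) = g + 1) :
    ∃ S : Fin (g + 1) → κ, ∀ w ∈ tsp I x, (∀ i, w (S i) = 0) → w = 0 := by
  classical
  let b := Module.finBasisOfFinrankEq E (tsp I x) h
  have hb : LinearIndependent E fun j => (b j : κ → E) :=
    b.linearIndependent.map' (tsp I x).subtype (Submodule.ker_subtype _)
  obtain ⟨S, hS⟩ := Function.ne_iff.1 (minors_ne_zero hb)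
  refine ⟨S, fun w hw h0 => ?_⟩
  have h1 : w = ∑ j, b.repr ⟨w, hw⟩ j • (b j : κ → E) := by
    have := congrArg (tsp I x).subtype (b.sum_repr ⟨w, hw⟩)
    simpa only [map_sum, map_smul, Submodule.subtype_apply] using this.symm
  have h2 : Matrix.vecMul (fun j => b.repr ⟨w, hw⟩ j) (Matrix.of fun j l => (b j : κ → E) (S l))
      = 0 := by
    funext l
    have := congrFun h1 (S l)
    rw [h0, Finset.sum_apply] at this
    simpa only [Matrix.vecMul, dotProduct, Matrix.of_apply, Pi.smul_apply, smul_eq_mul,
      Pi.zero_apply] using this.symm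
  have h3 := Matrix.eq_zero_of_vecMul_eq_zero hS h2
  rw [h1]
  exact Finset.sum_eq_zero fun j _ => by rw [show b.repr ⟨w, hw⟩ j = 0 from congrFun h3 j, zero_smul]

open Classical in
/-- Gradients of the elements of `I` and coordinate vectors. -/
noncomputable def chart1_row (I : Ideal (MvPolynomial κ k)) (S : Fin n → κ) :
    I ⊕ Fin n → κ → MvPolynomial κ k :=
  Sum.elim (fun P a => pderiv a (P : MvPolynomial κ k)) fun i a => if a = S i then 1 else 0

open Classical in
theorem chart1_row_sum {R : Type} [CommRing R] [Algebra k R] {y w : κ → R}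
    (hw : ∀ P ∈ I, dP y w P = 0) (r : I ⊕ Fin n) :
    ∑ a, aeval y (chart1_row I S r a) * w a = ∑ i, (if r = Sum.inr i then 1 else 0) * w (S i) := by
  rcases r with P | i
  · have := hw P P.2
    rw [dP_eq_sum] at this
    simpa [chart1_row] using this
  · simp [chart1_row, apply_ite (aeval y)]

theorem chart1_span (hS : ∀ w ∈ tsp I x, (∀ i, w (S i) = 0) → w = 0) :
    Submodule.span E (Set.range fun r a => aeval x (chart1_row I S r a)) = ⊤ := by
  classical
  by_contra hne
  obtain ⟨φ, hφ, hle⟩ := Submodule.exists_le_ker_of_lt_top _ (lt_top_iff_ne_top.2 hne)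
  have h1 : ∀ v : κ → E, φ v = ∑ a, v a * φ (Pi.single a 1) := fun v => by
    conv_lhs => rw [pi_eq_sum_univ' v]
    simp only [map_sum, map_smul, smul_eq_mul]
  have h2 : ∀ r, ∑ a, aeval x (chart1_row I S r a) * φ (Pi.single a 1) = 0 := fun r => by
    rw [← h1]
    exact hle (Submodule.subset_span ⟨r, rfl⟩)
  have h3 := hS (fun a => φ (Pi.single a 1)) (fun P hP => h2 (Sum.inl ⟨P, hP⟩)) fun i => by
    simpa [chart1_row, apply_ite (aeval x)] using h2 (Sum.inr i)
  refine hφ (LinearMap.ext fun v => ?_)
  rw [h1]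
  exact Finset.sum_eq_zero fun a _ => by
    rw [show φ (Pi.single a 1) = 0 from congrFun h3 a, mul_zero]

/-- Take a basis `b` of the tangent space and `S` with `minors b S ≠ 0` (`minors_ne_zero`): a tangent
vector with zero coordinates `S i` vanishes. So the rows `fun a => pderiv a P` (`P ∈ I`) and
`Pi.single (S i) 1`, evaluated at `x`, span `κ → E`; choose a basis among them
(`exists_linearIndependent'`), indexed by `κ`. Let `M` be the matrix of polynomials with these rows,
`Δ = M.det`, and use `Matrix.adjugate_mul`, `dP_eq_sum`. -/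
theorem chart_of_rank (h : finrank E (tsp I x) = g + 1) :
    ∃ (S : Fin (g + 1) → κ) (Δ : MvPolynomial κ k) (c : κ → Fin (g + 1) → MvPolynomial κ k),
      Chart I S Δ c ∧ aeval x Δ ≠ 0 := by
  classical
  obtain ⟨S, hS⟩ := chart1_coord h
  obtain ⟨τ, r, -, hs, hl⟩ := exists_linearIndependent' E fun r a => aeval x (chart1_row I S r a)
  rw [chart1_span hS] at hs
  have : Finite τ := hl.finite
  have := Fintype.ofFinite τ
  have hc : Fintype.card κ = Fintype.card τ := by
    rw [← finrank_span_eq_card hl, hs, finrank_top, Module.finrank_fintype_fun_eq_card]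
  let e := Fintype.equivOfCardEq hc
  let M : Matrix κ κ (MvPolynomial κ k) := Matrix.of fun s a => chart1_row I S (r (e s)) a
  refine ⟨S, M.det, fun a i => ∑ s, M.adjugate a s * if r (e s) = Sum.inr i then 1 else 0,
    fun R _ _ y w hw a => ?_, ?_⟩
  · have h1 := congrFun (Matrix.mulVec_mulVec w ((aeval y).mapMatrix M).adjugate
      ((aeval y).mapMatrix M)) a
    rw [Matrix.adjugate_mul, Matrix.smul_mulVec, Matrix.one_mulVec, ← AlgHom.map_det,
      ← AlgHom.map_adjugate] at h1
    rw [show aeval y M.det * w a = _ from h1.symm]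
    have h2 : ∀ s, ((aeval y).mapMatrix M).mulVec w s =
        ∑ i, (if r (e s) = Sum.inr i then 1 else 0) * w (S i) := fun s =>
      chart1_row_sum hw (r (e s))
    simp only [map_sum, map_mul, apply_ite (aeval y), map_one, map_zero, Finset.sum_mul]
    rw [Finset.sum_comm]
    refine Finset.sum_congr rfl fun s _ => ?_
    rw [h2, Finset.mul_sum]
    exact Finset.sum_congr rfl fun i _ => (mul_assoc _ _ _).symm
  · rw [AlgHom.map_det]
    have h1 : LinearIndependent E ((aeval x).mapMatrix M).row := hl.comp e e.injective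
    exact ((Matrix.isUnit_iff_isUnit_det _).1 (Matrix.linearIndependent_rows_iff_isUnit.1 h1)).ne_zero

/-- `exists_pt` for the kernel of `aeval x` and a variable outside it; `chart_of_rank` there. -/
theorem exists_chart (hs : Smooth I g) (h0 : x ≠ 0) (hx : ∀ P ∈ I, aeval x P = 0) :
    ∃ (S : Fin (g + 1) → κ) (Δ : MvPolynomial κ k) (c : κ → Fin (g + 1) → MvPolynomial κ k),
      Chart I S Δ c ∧ aeval x Δ ≠ 0 := by
  obtain ⟨a, ha⟩ := Function.ne_iff.1 h0
  have hp : (RingHom.ker (aeval x : MvPolynomial κ k →ₐ[k] E)).IsPrime := RingHom.ker_isPrime _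
  obtain ⟨y, hy, hya⟩ := exists_pt hp (H := X a) (by simpa [RingHom.mem_ker] using ha)
  obtain ⟨S, Δ, c, h1, h2⟩ := chart_of_rank (hs y (fun h => hya (by simp [h]))
    fun P hP => hy P (hx P hP))
  exact ⟨S, Δ, c, h1, fun h => h2 (hy Δ h)⟩

theorem chart2_inj (h : Chart I S Δ c) (h0 : aeval x Δ ≠ 0) :
    Function.Injective ((LinearMap.funLeft E E S).comp (tsp I x).subtype) := by
  rw [injective_iff_map_eq_zero]
  rintro ⟨v, hv⟩ hz
  have hz' : ∀ i, v (S i) = 0 := fun i => congrFun hz i
  refine Subtype.ext (funext fun a => ?_)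
  have h1 := h E x v (mem_tsp.1 hv) a
  simp only [hz', mul_zero, Finset.sum_const_zero] at h1
  exact (mul_eq_zero.1 h1).resolve_left h0

/-- The map `w ↦ w ∘ S` is injective on the tangent space (`mem_tsp`). -/
theorem Chart.rank_le (h : Chart I S Δ c) (h0 : aeval x Δ ≠ 0) : finrank E (tsp I x) ≤ n := by
  simpa using LinearMap.finrank_le_finrank_of_injective (chart2_inj h h0)

/-- The map `w ↦ w ∘ S` is injective, so surjective; take the preimage of `Pi.single i 1`. -/
theorem Chart.dual (h : Chart I S Δ c) (h0 : aeval x Δ ≠ 0) (hn : n ≤ finrank E (tsp I x))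
    (i : Fin n) : (fun a => aeval x (c a i) / aeval x Δ) ∈ tsp I x := by
  obtain ⟨⟨v, hv⟩, hz⟩ := (LinearMap.injective_iff_surjective_of_finrank_eq_finrank
    (by simpa using le_antisymm (h.rank_le h0) hn)).1 (chart2_inj h h0) (Pi.single i 1)
  have hz' : ∀ j, v (S j) = (Pi.single i 1 : Fin n → E) j := fun j => congrFun hz j
  have h1 : (fun a => aeval x (c a i) / aeval x Δ) = v := funext fun a => by
    have h2 := h E x v (mem_tsp.1 hv) a
    simp only [hz', Pi.single_apply, mul_ite, mul_one, mul_zero, Finset.sum_ite_eq',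
      Finset.mem_univ, if_true] at h2
    rw [← h2, mul_div_cancel_left₀ _ h0]
  rwa [h1]

/-- The derivations of `exists_derivation` dual to the family give independent tangent vectors
(`dP_der`). -/
theorem le_rank (hx : ∀ P ∈ I, aeval x P = 0) {z : Fin n → MvPolynomial κ k}
    (hz : AlgebraicIndependent k fun t => aeval x (z t)) : n ≤ finrank E (tsp I x) := by
  choose D hD using fun i : Fin n => exists_derivation hz (Pi.single i 1)
  have hd : ∀ i P, dP x (fun s => D i (x s)) P = D i (aeval x P) := fun i P =>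
    dP_der (D i) (D i).map_algebraMap x P
  let v : Fin n → tsp I x := fun i => ⟨fun s => D i (x s), mem_tsp.2 fun P hP => by
    rw [hd, hx P hP, map_zero]⟩
  let φ : tsp I x →ₗ[E] (Fin n → E) :=
    (Matrix.of fun t s => aeval x (pderiv s (z t))).mulVecLin.comp (tsp I x).subtype
  have h1 : φ ∘ v = Pi.basisFun E (Fin n) := by
    funext i t
    rw [Pi.basisFun_apply, ← hD i t, ← hd, dP_eq_sum]
    rfl
  exact (Fintype.card_fin n).ge.trans (LinearIndependent.of_comp (v := v) φ
    (h1 ▸ (Pi.basisFun E (Fin n)).linearIndependent)).fintype_card_le_finrank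

/-- As in the proof of `exists_indep` in `Bx/Vec`. -/
theorem indep_of_rank (hx : ∀ P, aeval x P = 0 → P ∈ I) (hn : n ≤ finrank E (tsp I x)) :
    ∃ j : Fin n → κ, AlgebraicIndependent k fun t => x (j t) := by
  classical
  obtain ⟨τ, j, hj, h1, -, h3⟩ := exists_td_basis_range k x
  have : Finite τ := .of_injective j hj
  obtain ⟨m, ⟨e⟩⟩ := Finite.exists_equiv_fin τ
  let J : Fin m → κ := j ∘ e.symm
  have hJ : AlgebraicIndependent k (x ∘ J) := h1.comp e.symm e.symm.injective
  have hR : Set.range (x ∘ J) = Set.range (x ∘ j) := e.symm.surjective.range_comp (x ∘ j)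
  have hf : Function.Injective ((LinearMap.funLeft E E J).comp (tsp I x).subtype) := by
    rw [injective_iff_map_eq_zero]
    rintro ⟨v, hv⟩ h
    have hz : ∀ t, v (J t) = 0 := fun t => congrFun h t
    refine Subtype.ext (funext fun a => ?_)
    by_cases ha : a ∈ Set.range J
    · obtain ⟨t, rfl⟩ := ha
      exact hz t
    obtain ⟨φ, hφ, e1, e2⟩ := trb_eqn hJ ha (by rw [hR]; exact h3 a)
    have h4 := mem_tsp.1 hv φ (hx φ e1)
    rw [dP_eq_sum, Finset.sum_eq_single a _ fun h => (h (Finset.mem_univ a)).elim] at h4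
    · exact (mul_eq_zero.1 h4).resolve_left e2
    intro b _ hb
    by_cases hb' : b ∈ Set.range J
    · obtain ⟨t, rfl⟩ := hb'
      rw [hz, mul_zero]
    · rw [pderiv_eq_zero_of_notMem_vars fun h => (mem_supported.1 hφ h).elim hb hb', map_zero,
        zero_mul]
  have hle : n ≤ m := hn.trans (by simpa using LinearMap.finrank_le_finrank_of_injective hf)
  exact ⟨fun t => J (Fin.castLE hle t), hJ.comp _ (Fin.castLE_injective hle)⟩

/-- The kernel of `aeval x` gives a prime of the quotient of height at least two (`Ideal.height_mono`);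
`indep_add_two`; at the generic point (`tr_point`, it is not zero) `le_rank` contradicts
`exists_chart`, `Chart.rank_le`. -/
theorem cod_of_height (hI : I.IsPrime) (hs : Smooth I g) {Y : α → MvPolynomial κ k}
    (h : 2 ≤ ((Ideal.span (Set.range Y)).map (Ideal.Quotient.mk I)).height) : Cod I Y g := by
  intro E _ _ x hx hY j hj
  let f : (MvPolynomial κ k ⧸ I) →ₐ[k] E := Ideal.Quotient.liftₐ I (aeval x) hx
  have hp : (RingHom.ker f).IsPrime := RingHom.ker_isPrime f
  have h1 : (Ideal.span (Set.range Y)).map (Ideal.Quotient.mk I) ≤ RingHom.ker f :=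
    Ideal.map_le_iff_le_comap.2 (Ideal.span_le.2 (Set.range_subset_iff.2 hY))
  obtain ⟨z', hz'⟩ := indep_add_two (k := k) (RingHom.ker f) (h.trans (Ideal.height_mono h1))
    (z := fun t => Ideal.Quotient.mk I (X (j t)))
    (.of_comp (Ideal.Quotient.liftₐ (RingHom.ker f) f fun _ ha => ha) (by
      have e : (Ideal.Quotient.liftₐ (RingHom.ker f) f fun _ ha => ha) ∘ (fun t =>
          Ideal.Quotient.mk (RingHom.ker f) (Ideal.Quotient.mk I (X (j t)))) = fun t => x (j t) :=
        funext fun t => aeval_X x (j t)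
      rwa [e]))
  obtain ⟨M, _, _, y, hy, -⟩ := tr_point I
  let f' : (MvPolynomial κ k ⧸ I) →ₐ[k] M := Ideal.Quotient.liftₐ I (aeval y) fun P => (hy P).2
  choose w hw using fun t => Ideal.Quotient.mk_surjective (z' t)
  have hf : Function.Injective f' := by
    rw [injective_iff_map_eq_zero]
    intro a ha
    obtain ⟨P, rfl⟩ := Ideal.Quotient.mk_surjective a
    exact Ideal.Quotient.eq_zero_iff_mem.2 ((hy P).1 ha)
  have h2 : AlgebraicIndependent k fun t => aeval y (w t) := by
    have e : f' ∘ z' = fun t => aeval y (w t) := funext fun t => by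
      rw [Function.comp_apply, ← hw]
      rfl
    exact e ▸ hz'.map' hf
  have h0 : y ≠ 0 := by
    rintro rfl
    exact h2.transcendental 0 (by rw [aeval_zero]; exact isAlgebraic_algebraMap _)
  obtain ⟨S, Δ, c, h3, h4⟩ := exists_chart hs h0 fun P => (hy P).2
  have h5 := (le_rank (fun P => (hy P).2) h2).trans (h3.rank_le h4)
  omega

/-- As `rep1_cot` in `Bx/Rep`, with `tsp I` for `A.Tan` (`mem_tsp`); end as in `rep1_loc`. -/
theorem val_of_rank {R : Type} [CommRing R] [IsDomain R] [IsLocalRing R] [IsNoetherianRing R]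
    [Algebra k R] {x : κ → R} (hx : ∀ P ∈ I, aeval x P = 0)
    (hg : ∀ t : R, ∃ P Q : MvPolynomial κ k, IsUnit (aeval x Q) ∧ t * aeval x Q = aeval x P)
    (hr : finrank (IsLocalRing.ResidueField R)
      (tsp I fun a => algebraMap R (IsLocalRing.ResidueField R) (x a)) ≤ g + 1) {z : Fin g → R}
    (hz : AlgebraicIndependent k fun t => algebraMap R (IsLocalRing.ResidueField R) (z t)) :
    PreValuationRing R := by
  classical
  suffices h1 : finrank (IsLocalRing.ResidueField R) (IsLocalRing.CotangentSpace R) ≤ 1 from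
    (((tfae_of_isNoetherianRing_of_isLocalRing_of_isDomain R).out 5 1).mp h1 :
      ValuationRing R).toPreValuationRing
  by_contra hn
  have h2 : 2 ≤ finrank (IsLocalRing.ResidueField R) (IsLocalRing.CotangentSpace R) := by omega
  let b := finBasis (IsLocalRing.ResidueField R) (IsLocalRing.CotangentSpace R)
  choose δ hδ using fun i : Fin 2 => exists_der_cot (k := k) (b.coord (Fin.castLE h2 i))
  choose m hm using fun i : Fin 2 =>
    (IsLocalRing.maximalIdeal R).toCotangent_surjective (b (Fin.castLE h2 i))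
  choose D hD using fun t : Fin g => exists_derivation hz (Pi.single t 1)
  let E : Fin 2 ⊕ Fin g → Derivation k R (IsLocalRing.ResidueField R) :=
    Sum.elim δ fun t => (D t).compAlgebraMap R
  let w : Fin 2 ⊕ Fin g → tsp I fun c => algebraMap R (IsLocalRing.ResidueField R) (x c) :=
    fun i => ⟨fun c => E i (x c), fun P hP => by rw [← dP_eq_sum, rep1_chain, hx P hP, map_zero]⟩
  have hw : LinearIndependent (IsLocalRing.ResidueField R) w := by
    refine Fintype.linearIndependent_iff.mpr fun u hu => ?_
    have hs : ∀ t, (∑ i, u i • E i) t = ∑ i, u i * E i t := fun t =>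
      (congrFun (map_sum Derivation.coeFnAddMonoidHom (fun i => u i • E i) Finset.univ) t).trans
        ((Finset.sum_apply _ _ _).trans (Finset.sum_congr rfl fun _ _ => rfl))
    have h3 : (fun c => (∑ i, u i • E i) (x c)) = 0 := funext fun c => by
      have := congrFun (congrArg Subtype.val hu) c
      rw [Submodule.coe_sum, Finset.sum_apply] at this
      exact (hs _).trans this
    have h4 : ∀ P : MvPolynomial κ k, (∑ i, u i • E i) (aeval x P) = 0 := fun P => by
      rw [← rep1_chain, h3, dP_zero]
    have h5 : ∀ t, ∑ i, u i * E i t = 0 := fun t => by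
      obtain ⟨P, Q, hQ, e⟩ := hg t
      have h6 := h4 P
      rw [← e, Derivation.leibniz, h4 Q, smul_zero, zero_add, hQ.smul_eq_zero] at h6
      exact (hs t).symm.trans h6
    have h7 : ∀ i, u (.inl i) = 0 := fun i => by
      have h6 := h5 (m i)
      have h8 : algebraMap R (IsLocalRing.ResidueField R) (m i) = 0 :=
        (IsLocalRing.residue_eq_zero_iff _).mpr (m i).2
      have h10 : ∀ j, E (.inl j) (m i) = if i = j then 1 else 0 := fun j => by
        rw [show E (.inl j) = δ j from rfl, hδ, hm, Basis.coord_apply, Basis.repr_self,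
          Finsupp.single_apply]
        simp only [Fin.castLE_inj]
      have h11 : ∀ t, E (.inr t) (m i) = 0 := fun t => (congrArg (D t) h8).trans (map_zero _)
      simpa only [Fintype.sum_sum_type, h10, h11, mul_zero, Finset.sum_const_zero, add_zero,
        mul_ite, mul_one, Finset.sum_ite_eq, Finset.mem_univ, if_true] using h6
    rintro (i | s)
    · exact h7 i
    · have h10 : ∀ t, E (.inr t) (z s) = if s = t then 1 else 0 := fun t =>
        (hD t s).trans (Pi.single_apply _ _ _)
      simpa only [Fintype.sum_sum_type, h7, h10, zero_mul, mul_zero, Finset.sum_const_zero,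
        zero_add, mul_ite, mul_one, Finset.sum_ite_eq, Finset.mem_univ, if_true] using h5 (z s)
  have h9 := hw.fintype_card_le_finrank.trans hr
  rw [Fintype.card_sum, Fintype.card_fin, Fintype.card_fin] at h9
  omega

end Pool.Agent.Lib.MP_651af7_nt.Hy
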