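import Pool.Agent.Lib.MP_651af7_nt.Hy.Reg

/-! A birational map from an abelian variety to a smooth variety contracts no divisor. -/

namespace Pool.Agent.Lib.MP_651af7_nt.Hy

open MvPolynomial Module Av Bx IsLocalRing

set_option linter.unusedSectionVars false

variable {k : Type} [Field k] [CharZero k] {ι κ α : Type} [Fintype ι] [Fintype κ] {r d : ℕ}
  {A : AV k ι} {σ : Fin r → ι → k} {I : Ideal (MvPolynomial κ k)}
  {φ : ι → MvPolynomial κ k} {ψ Ψ : κ → MvPolynomial ι k}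

section
variable {R : Type} [CommRing R] [IsDomain R] [ValuationRing R] [Algebra k R] {y : ι → R}

/-- `dP_comp` over a ring. -/
theorem inj_comp {R : Type} [CommRing R] [Algebra k R] (x v : ι → R) (P : MvPolynomial κ k) :
    dP x v (aeval Ψ P) = dP (fun j => aeval x (Ψ j)) (fun j => dP x v (Ψ j)) P := by
  have h : (fun j => aeval (dw x v) (Ψ j)) = dw (fun j => aeval x (Ψ j)) fun j => dP x v (Ψ j) :=
    funext fun j => TrivSqZeroExt.ext (fst_aeval_dw x v (Ψ j)) rfl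
  rw [dP, trans_aev, h, dP]

/-- Over a field: if `ω = dΨ w = ∑ ω (S i) • τ i` then `trl y w = ∑ ω (S i) • trl (φ x) (dφ τ i)`. -/
theorem trl_pull {L : Type} [Field L] [Algebra k L] {y w : ι → L} (h' : Inv A.I I Ψ φ)
    (hk : ∀ P, aeval y P = 0 ↔ P ∈ A.I) (hy : y ≠ 0) (hw : w ∈ A.Tan y) {n : ℕ}
    {τ : Fin n → κ → L} {ω : Fin n → L} (hτ : ∀ a, dP y w (Ψ a) = ∑ i, ω i * τ i a) :
    A.trl y w = ∑ i, ω i • A.trl (fun b => aeval (fun a => aeval y (Ψ a)) (φ b))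
      fun b => dP (fun a => aeval y (Ψ a)) (τ i) (φ b) := by
  obtain ⟨p, hp⟩ := AV.exists_rep (A := A) ((Function.ne_iff.1 hy).imp fun _ h => Ne.isUnit h)
    fun P hP => (hk P).2 hP
  obtain ⟨s, h1, h2⟩ := prp_val (ψ := X) (Ψ := fun b => aeval Ψ (φ b)) h'.id
    (fun P hP => (hk P).2 hP) (by simpa only [aeval_X] using hy)
  obtain ⟨ν, h3⟩ := h2 w (tsp_eq (A := A) y ▸ hw)
  obtain ⟨j, hj⟩ := h'.ne
  have hs : s ≠ 0 := fun e => hj ((hk _).1 (by rw [h1, e, zero_mul]))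
  simp only [aeval_X, dP_X] at h1 h3
  rw [← (trl_scale hp hw hs.isUnit h1 h3).2.2]
  simp only [← map_smul, ← map_sum, trans_aev y]
  refine congrArg _ (funext fun b => ?_)
  simp only [dP_comp, dP_eq_sum (fun a => aeval y (Ψ a)), hτ, Finset.sum_apply, Pi.smul_apply,
    smul_eq_mul, Finset.mul_sum, mul_left_comm (ω _)]
  exact Finset.sum_comm

theorem exists_U (hσ : A.LieBasis σ) (hI : Var I) (hs : Smooth I r) (h : Inv I A.I φ Ψ)
    (h' : Inv A.I I Ψ φ) (hΨ : ∀ i, (Ψ i).IsHomogeneous (d + 1))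
    (hk : ∀ P, aeval y P = 0 ↔ P ∈ A.I) (hy : ∃ a, IsUnit (y a)) (hu : ∃ i, IsUnit (aeval y (Ψ i))) :
    ∃ (S : Fin (r + 1) → κ) (U : Fin (r + 1) → ι → R), ∀ w ∈ A.Tan y,
      A.trl y w = ∑ i, dP y w (Ψ (S i)) • U i := by
  obtain ⟨i₀, hi⟩ := hu
  obtain ⟨x, hxe⟩ : ∃ x : κ → R, x = fun a => aeval y (Ψ a) := ⟨_, rfl⟩
  have hx : ∀ P, aeval x P = 0 ↔ P ∈ I := fun P => by
    rw [hxe, ← trans_aev, hk]
    exact ⟨pull_mem hI.isPrime A.hom h hΨ, h'.map P⟩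
  obtain ⟨S, Δ, c, hC, hΔ⟩ := exists_chart (x := fun a => algebraMap R (ResidueField R) (x a)) hs
    (fun e => (residue_ne_zero_iff_isUnit _).2 hi (by subst hxe; exact congrFun e i₀))
    fun P hP => by rw [rep1_ev, (hx P).2 hP, map_zero]
  rw [rep1_ev] at hΔ
  have hΔ' : IsUnit (aeval x Δ) := (residue_ne_zero_iff_isUnit _).1 hΔ
  obtain ⟨B, _, _, _, _, ξ, b1, b2, b3, b4⟩ :=
    exists_away hI.isPrime (Δ := Δ) fun e => hΔ'.ne_zero ((hx _).2 e)
  obtain ⟨ρ, hρ⟩ := b4 R x (fun P hP => (hx P).2 hP) hΔ'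
  have hρ' : ∀ P, ρ (aeval ξ P) = aeval x P := fun P => by rw [← aeval_hom, funext hρ]
  have hinj : Function.Injective ρ := (injective_iff_map_eq_zero ρ).2 fun t ht => by
    obtain ⟨P, Q, hQ, e⟩ := b3 t
    have h1 := congrArg ρ e
    rw [map_mul, ht, zero_mul, hρ'] at h1
    rw [(b1 P).2 ((hx P).1 h1.symm)] at e
    exact (mul_eq_zero.1 e).resolve_right hQ.ne_zero
  let F := FractionRing B
  let L := FractionRing R
  let fB := IsScalarTower.toAlgHom k B F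
  let fR := IsScalarTower.toAlgHom k R L
  have iB : Function.Injective fB := IsFractionRing.injective B F
  have iR : Function.Injective fR := IsFractionRing.injective R L
  let j : F →ₐ[k] L := IsFractionRing.liftAlgHom (g := fR.comp ρ) (iR.comp hinj)
  have hj : ∀ t, j (fB t) = fR (ρ t) := fun t =>
    IsFractionRing.lift_algebraMap (g := (fR.comp ρ).toRingHom) (iR.comp hinj) t
  have hξ : ∀ P, aeval (fun a => fB (ξ a)) P = 0 ↔ P ∈ I := fun P => by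
    rw [aeval_hom, map_eq_zero_iff _ iB, b1]
  obtain ⟨H, hH, hH'⟩ := exists_form hσ hI h h'
  have hr := (hH' F _ (fun P hP => (hξ P).2 hP) fun e => hH ((hξ H).1 e)).2
  obtain ⟨δ, hδ⟩ := b2.exists_right_inv
  have hτ : ∀ i, ∀ P ∈ I, dP ξ (fun a => aeval ξ (c a i) * δ) P = 0 := fun i P hP => iB (by
    have h1 : aeval (fun a => fB (ξ a)) Δ ≠ 0 := fun e => hΔ'.ne_zero ((hx _).2 ((hξ _).1 e))
    rw [map_dP, map_zero, ← mem_tsp.1 (hC.dual h1 hr.ge i) P hP]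
    refine congrArg (fun w => dP _ w P) (funext fun a => ?_)
    rw [eq_div_iff h1, aeval_hom, aeval_hom, ← map_mul, mul_assoc, mul_comm δ, hδ, mul_one])
  obtain ⟨b₀, hb₀⟩ : ∃ b, φ b ∉ I := by
    by_contra! hc
    obtain ⟨b, hb⟩ := h'.ne
    exact hb (h'.map _ (hc b))
  have hU : ∀ i a, ∃ u : R, fR u = j (A.trl (fun b => fB (aeval ξ (φ b)))
      (fun b => fB (dP ξ (fun a => aeval ξ (c a i) * δ) (φ b))) a) := fun i a => by
    obtain ⟨q, hq, e⟩ := reg (F := F) b1 b3 hC b2 hr.ge (hτ i) h.map ⟨b₀, hb₀⟩ a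
    refine IsIntegrallyClosed.algebraMap_eq_of_integral ⟨q.map ρ.toRingHom, hq.map _, ?_⟩
    have e1 := congrArg j.toRingHom e
    rw [Polynomial.hom_eval₂, map_zero] at e1
    rw [Polynomial.eval₂_map, ← e1]
    exact congrArg (fun f => Polynomial.eval₂ f _ q) (RingHom.ext fun t => (hj t).symm)
  choose U hU using hU
  refine ⟨S, U, fun w hw => funext fun a => iR ?_⟩
  obtain ⟨p, hp⟩ := AV.exists_rep (A := A) hy fun P hP => (hk P).2 hP
  obtain ⟨q, hq⟩ := AV.exists_rep (A := A) (v := fun b => fB (aeval ξ (φ b)))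
    ⟨b₀, Ne.isUnit fun e => hb₀ ((hξ _).1 ((aeval_hom _ _ _).trans e))⟩ fun P hP => by
      rw [aeval_hom, ← trans_aev, (b1 _).2 (h.map P hP), map_zero]
  have h1 : ∀ a, dP y w (Ψ a) = ∑ i, dP y w (Ψ (S i)) * ρ (aeval ξ (c a i) * δ) := fun a => by
    have h2 := hC R x (fun a => dP y w (Ψ a)) (fun P hP => by
      rw [hxe, ← inj_comp, hw _ (h'.map P hP)]) a
    have h3 := congrArg ρ hδ
    rw [map_mul, map_one, hρ'] at h3
    simp only [map_mul, hρ', mul_left_comm (dP y w _), ← mul_assoc, ← Finset.sum_mul, ← h2]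
    linear_combination (-dP y w (Ψ a)) * h3
  have h4 := trl_pull (y := fun a => fR (y a)) (w := fun a => fR (w a)) h'
    (fun P => by rw [aeval_hom, map_eq_zero_iff _ iR, hk])
    (fun e => hy.elim fun a ha => (ha.map fR).ne_zero (congrFun e a)) (AV.map_mem_Tan fR hw)
    (τ := fun i a => fR (ρ (aeval ξ (c a i) * δ))) (ω := fun i => fR (dP y w (Ψ (S i))))
    fun a => by rw [← map_dP, h1, map_sum]; simp only [map_mul fR (dP y w _)]
  rw [← congrFun (AV.trl_map fR hp hw) a, h4, Finset.sum_apply, Finset.sum_apply, map_sum]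
  refine Finset.sum_congr rfl fun i _ => ?_
  have h5 := congrFun (AV.trl_map j hq (w := fun b => fB (dP ξ (fun a => aeval ξ (c a i) * δ) (φ b)))
    fun P hP => by rw [← map_dP, ← inj_comp, hτ i _ (h.map P hP), map_zero]) a
  rw [Pi.smul_apply, Pi.smul_apply, smul_eq_mul, smul_eq_mul, map_mul, hU, ← h5]
  simp only [hj, hρ', map_dP, hρ, aeval_hom, hxe]

theorem inj_loc (hσ : A.LieBasis σ) (hI : Var I) (hs : Smooth I r) (h : Inv I A.I φ Ψ)
    (h' : Inv A.I I Ψ φ) (hΨ : ∀ i, (Ψ i).IsHomogeneous (d + 1))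
    (hk : ∀ P, aeval y P = 0 ↔ P ∈ A.I) (hy : ∃ a, IsUnit (y a)) (hu : ∃ i, IsUnit (aeval y (Ψ i)))
    {w : ι → ResidueField R} (hw : w ∈ A.Tan fun a => algebraMap R (ResidueField R) (y a))
    (h0 : ∀ i, dP (fun a => algebraMap R (ResidueField R) (y a)) w (Ψ i) = 0) : w = 0 := by
  obtain ⟨S, U, hU⟩ := exists_U hσ hI hs h h' hΨ hk hy hu
  let f := IsScalarTower.toAlgHom k R (ResidueField R)
  obtain ⟨p, hp⟩ := AV.exists_rep (A := A) hy fun P hP => (hk P).2 hP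
  have hp' := hp.map f
  obtain ⟨τ, hτ⟩ := hσ.span _ _ (AV.isLie_iff.2 (AV.trl_mem hp' hw))
  choose t ht using fun j => residue_surjective (τ j)
  obtain ⟨v, hv, hl⟩ := AV.trl_surj hp (l := ∑ j, t j • fun a => algebraMap k R (σ j a))
    (sum_mem fun j _ => Submodule.smul_mem _ _
      (AV.map_mem_Lie (Algebra.ofId k R) (AV.isLie_iff.1 (hσ.mem j))))
  have h1 : A.trl (fun a => f (y a)) (fun a => f (v a)) = A.trl (fun a => f (y a)) w := by
    rw [AV.trl_map f hp hv, hl]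
    funext a
    simp only [hτ, Finset.sum_apply, Pi.smul_apply, smul_eq_mul, map_sum, map_mul, AlgHom.commutes,
      ← ht]
    rfl
  obtain ⟨c, hc⟩ := (AV.trl_eq_zero_iff hp' (sub_mem (AV.map_mem_Tan f hv) hw)).1
    (by rw [map_sub, h1, sub_self])
  obtain ⟨c, rfl⟩ := residue_surjective c
  have h2 : v - c • y ∈ A.Tan y := sub_mem hv (Submodule.smul_mem _ _ hp.self_mem_Tan)
  have h3 : w = fun a => f ((v - c • y) a) := funext fun a => by
    rw [Pi.sub_apply, Pi.smul_apply, smul_eq_mul, map_sub, map_mul]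
    exact (sub_eq_iff_comm.1 (congrFun hc a)).symm
  obtain ⟨e, he⟩ := (AV.trl_eq_zero_iff hp' hw).1 (by
    rw [h3, AV.trl_map f hp h2, hU _ h2]
    funext a
    simp only [Finset.sum_apply, Pi.smul_apply, smul_eq_mul, map_sum, map_mul, map_dP, ← h3]
    exact Finset.sum_eq_zero fun i _ => mul_eq_zero_of_left (h0 _) _)
  obtain ⟨i, hi⟩ := hu
  have h4 : dP (fun a => f (y a)) w (Ψ i) = 0 := h0 i
  have := charZero_of_injective_algebraMap (algebraMap k (ResidueField R)).injective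
  rw [he, dP_smul, dP_self (hΨ i), aeval_hom] at h4
  rw [he, (mul_eq_zero.1 h4).resolve_right (mul_ne_zero (Nat.cast_ne_zero.2 d.succ_ne_zero)
    ((residue_ne_zero_iff_isUnit _).2 hi)), zero_smul]

theorem nc_loc (hσ : A.LieBasis σ) (hI : Var I) (hs : Smooth I r) (h : Inv I A.I φ Ψ)
    (h' : Inv A.I I Ψ φ) (hΨ : ∀ i, (Ψ i).IsHomogeneous (d + 1))
    (hk : ∀ P, aeval y P = 0 ↔ P ∈ A.I) (hy : ∃ a, IsUnit (y a)) (hu : ∃ i, IsUnit (aeval y (Ψ i)))
    (hg : ∀ t : R, ∃ P Q : MvPolynomial ι k, IsUnit (aeval y Q) ∧ t * aeval y Q = aeval y P)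
    {z : Fin r → R} (hz : AlgebraicIndependent k fun t => algebraMap R (ResidueField R) (z t))
    {Y : α → MvPolynomial κ k} (hc : Cod I Y r) : ∃ j, IsUnit (aeval y (aeval Ψ (Y j))) := by
  by_contra! hn
  have h1 : ∀ P ∈ A.I, aeval (fun a => algebraMap R (ResidueField R) (y a)) P = 0 := fun P hP => by
    rw [rep1_ev, (hk P).2 hP, map_zero]
  have h0 := hc _ _ (h'.zero h1) fun j => by
    rw [← trans_aev, rep1_ev]
    exact not_not.1 fun e => hn j ((residue_ne_zero_iff_isUnit _).1 e)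
  suffices key : ∀ D : Derivation k (ResidueField R) (ResidueField R),
      (∀ i, D (aeval (fun a => algebraMap R (ResidueField R) (y a)) (Ψ i)) = 0) → D = 0 by
    obtain ⟨j, hj⟩ := indep_of_der key hz
    exact h0 j hj
  intro D hD
  have hw : (fun a => D (algebraMap R (ResidueField R) (y a))) = 0 :=
    inj_loc hσ hI hs h h' hΨ hk hy hu
      (fun P hP => (dP_der D D.map_algebraMap _ P).trans (by rw [h1 P hP, map_zero]))
      fun i => (dP_der D D.map_algebraMap _ _).trans (hD i)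
  have h2 : ∀ P : MvPolynomial ι k, D (algebraMap R (ResidueField R) (aeval y P)) = 0 := fun P => by
    rw [← rep1_ev, ← dP_der D D.map_algebraMap, hw, dP_zero]
  refine Derivation.ext fun t => ?_
  obtain ⟨t, rfl⟩ : ∃ s, algebraMap R (ResidueField R) s = t := residue_surjective t
  obtain ⟨P, Q, hQ, e⟩ := hg t
  have h3 := h2 P
  rw [← e, map_mul, Derivation.leibniz, h2, smul_zero, zero_add, smul_eq_mul, mul_eq_zero] at h3
  exact h3.resolve_left ((residue_ne_zero_iff_isUnit _).2 hQ)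

end

theorem inj_nc (hσ : A.LieBasis σ) (hI : Var I) (hs : Smooth I r) (h : Inv I A.I φ Ψ)
    (h' : Inv A.I I Ψ φ) (hΨ : ∀ i, (Ψ i).IsHomogeneous (d + 1)) {Y : α → MvPolynomial κ k}
    (hc : Cod I Y r) {B : Type} [CommRing B] [IsDomain B] [Algebra k B] [Algebra.FiniteType k B]
    (π : MvPolynomial ι k →ₐ[k] B) (hπ : Function.Surjective π) (hk : ∀ P, π P = 0 ↔ P ∈ A.I)
    (𝔭 : Ideal B) [𝔭.IsPrime] [PreValuationRing (Localization.AtPrime 𝔭)] (h1 : 𝔭.height ≤ 1)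
    {z : Fin (r + 1) → B} (hz : AlgebraicIndependent k z) {a : ι} (ha : π (X a) ∉ 𝔭) {i : κ}
    (hi : π (Ψ i) ∉ 𝔭) : ∃ j, π (aeval Ψ (Y j)) ∉ 𝔭 := by
  have : ValuationRing (Localization.AtPrime 𝔭) := {}
  obtain ⟨z', hz'⟩ := ht_indep 𝔭 h1 hz
  have hf : ∀ P, aeval (fun a => algebraMap B (Localization.AtPrime 𝔭) (π (X a))) P =
      algebraMap B (Localization.AtPrime 𝔭) (π P) := fun P => by
    rw [rep1_ev, aeval_unique π]
    simp [Function.comp_def]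
  have hu := IsLocalization.AtPrime.isUnit_to_map_iff (Localization.AtPrime 𝔭) 𝔭
  refine (nc_loc hσ hI hs h h' hΨ
    (y := fun a => algebraMap B (Localization.AtPrime 𝔭) (π (X a)))
    (z := fun t => algebraMap B (Localization.AtPrime 𝔭) (z' t))
    (fun P => by
      rw [hf, map_eq_zero_iff _ (IsLocalization.injective _ 𝔭.primeCompl_le_nonZeroDivisors), hk])
    ⟨a, (hu _).2 ha⟩ ⟨i, hf _ ▸ (hu _).2 hi⟩ (fun t => ?_) ?_ hc).imp fun j hj => (hu _).1 (hf _ ▸ hj)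
  · obtain ⟨⟨p, s⟩, e⟩ := IsLocalization.surj 𝔭.primeCompl t
    obtain ⟨P, hP⟩ := hπ p
    obtain ⟨Q, hQ⟩ := hπ s.1
    exact ⟨P, Q, by rw [hf, hQ]; exact IsLocalization.map_units _ s, by rw [hf, hf, hP, hQ, e]⟩
  · refine algebraicIndependent_iff.mpr fun p hp => algebraicIndependent_iff.mp hz' p ?_
    rw [rep1_ev, rep1_ev] at hp
    have h3 := (IsLocalization.AtPrime.to_map_mem_maximal_iff _ 𝔭 _).mp
      ((IsLocalRing.residue_eq_zero_iff _).mp hp)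
    exact (rep1_ev (F := B ⧸ 𝔭) z' p).trans (Ideal.Quotient.eq_zero_iff_mem.mpr h3)

theorem nc (hσ : A.LieBasis σ) (hr : 0 < r) (hI : Var I) (hs : Smooth I r) (h : Inv I A.I φ Ψ)
    (h' : Inv A.I I Ψ φ) (hΨ : ∀ i, (Ψ i).IsHomogeneous (d + 1)) {Y : α → MvPolynomial κ k}
    (hc : Cod I Y r) (𝔭 : Ideal (MvPolynomial ι k ⧸ A.I)) [𝔭.IsPrime] (h1 : 𝔭.height ≤ 1) {i : κ}
    (hi : Ideal.Quotient.mk A.I (Ψ i) ∉ 𝔭) : ∃ j, Ideal.Quotient.mk A.I (aeval Ψ (Y j)) ∉ 𝔭 := by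
  have := A.tr_prime
  obtain ⟨a, ha⟩ := exists_X hσ hr 𝔭 h1
  have := val_at hσ 𝔭 h1 ha
  obtain ⟨z, hz⟩ := exists_indep hσ
  exact inj_nc hσ hI hs h h' hΨ hc (Ideal.Quotient.mkₐ k A.I) (Ideal.Quotient.mkₐ_surjective k A.I)
    (fun P => Ideal.Quotient.eq_zero_iff_mem) 𝔭 h1 hz ha hi

theorem height_pull (hσ : A.LieBasis σ) (hr : 0 < r) (hI : Var I) (hs : Smooth I r)
    (h : Inv I A.I φ ψ) (h' : Inv A.I I ψ φ) {Y : α → MvPolynomial κ k} (hc : Cod I Y r) {T : Type}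
    {Ψ : T → κ → MvPolynomial ι k} (hΨ : ∀ t, Prp A.I ψ (Ψ t) (d + 1))
    (h2 : 2 ≤ ((Ideal.span (Set.range fun p : T × κ => Ψ p.1 p.2)).map
      (Ideal.Quotient.mk A.I)).height) :
    2 ≤ ((Ideal.span (Set.range fun p : T × α => aeval (Ψ p.1) (Y p.2))).map
      (Ideal.Quotient.mk A.I)).height := by
  rw [Ideal.height_eq_inf_minimalPrimes]
  refine le_iInf₂ fun 𝔭 h𝔭 => not_lt.1 fun h1 => ?_
  have := h𝔭.isPrime
  obtain ⟨t, i, hi⟩ : ∃ t i, Ideal.Quotient.mk A.I (Ψ t i) ∉ 𝔭 := by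
    by_contra! hn
    refine (h2.trans (Ideal.height_mono ?_)).not_gt h1
    rw [Ideal.map_le_iff_le_comap, Ideal.span_le]
    rintro _ ⟨q, rfl⟩
    exact hn _ _
  obtain ⟨h3, h4⟩ := prp_inv hI.isPrime hI.hom A.tr_prime h h' (hΨ t)
    ⟨i, fun e => hi (Ideal.Quotient.eq_zero_iff_mem.2 e ▸ 𝔭.zero_mem)⟩
  obtain ⟨j, hj⟩ := nc hσ hr hI hs h3 h4 (hΨ t).hom hc 𝔭 (ENat.lt_two_iff.1 h1) hi
  exact hj (h𝔭.1.2 (Ideal.mem_map_of_mem _ (Ideal.subset_span ⟨(t, j), rfl⟩)))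

end Pool.Agent.Lib.MP_651af7_nt.Hy
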