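import Pool.Agent.Lib.MP_651af7_nt.Hy.Chart
import Pool.Agent.Lib.MP_651af7_nt.Bx.Trans

/-! Invariant differentials are regular on a smooth model. -/

namespace Pool.Agent.Lib.MP_651af7_nt.Hy

open MvPolynomial Module Av Bx

set_option linter.unusedSectionVars false

variable {k : Type} [Field k] [CharZero k] {ι κ : Type} [Fintype ι] [Fintype κ] {r g : ℕ}
  {A : AV k ι} {σ : Fin r → ι → k} {I : Ideal (MvPolynomial κ k)} {J : Ideal (MvPolynomial ι k)}
  {φ : ι → MvPolynomial κ k} {ψ Ψ : κ → MvPolynomial ι k}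

/-- `dw v' w' = ⟨s, μ⟩ * dw v w` over the dual numbers: `exists_rep_dw`, `Rep.smul`, `Rep.mem_Tan`,
`lamE_eq_trl`. -/
theorem trl_scale {R : Type} [CommRing R] [IsLocalRing R] [Algebra k R] {p : A.Pt R}
    {v w v' w' : ι → R} (hv : AV.Rep p v) (hw : w ∈ A.Tan v) {s μ : R} (hs : IsUnit s)
    (h1 : ∀ a, v' a = s * v a) (h2 : ∀ a, w' a = s * w a + μ * v a) :
    AV.Rep p v' ∧ w' ∈ A.Tan v' ∧ A.trl v' w' = A.trl v w := by
  obtain ⟨q, hq⟩ := AV.exists_rep_dw hv hw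
  let c : DualNumber R := ⟨s, μ⟩
  have e : dw v' w' = fun a => c * dw v w a :=
    funext fun a => TrivSqZeroExt.ext (h1 a) ((h2 a).trans (DualNumber.snd_mul c (dw v w a)).symm)
  have h3 : AV.Rep q (dw v' w') :=
    e ▸ hq.smul (c := c) (TrivSqZeroExt.isUnit_iff_isUnit_fst.mpr hs)
  exact ⟨funext h1 ▸ hv.smul hs, h3.mem_Tan, (AV.lamE_eq_trl h3).symm.trans (AV.lamE_eq_trl hq)⟩

/-- `Prp.val` of `Bx/Wr` over an extension field (same proof). -/
theorem prp_val {F : Type} [Field F] [Algebra k F] (h : ∀ i l, Ψ i * ψ l - Ψ l * ψ i ∈ J) {y : ι → F}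
    (hy : ∀ P ∈ J, aeval y P = 0) (h0 : (fun i => aeval y (ψ i)) ≠ 0) :
    ∃ s : F, (∀ i, aeval y (Ψ i) = s * aeval y (ψ i)) ∧ ∀ w ∈ tsp J y, ∃ ν : F,
      ∀ i, dP y w (Ψ i) = s * dP y w (ψ i) + ν * aeval y (ψ i) := by
  obtain ⟨l, hl⟩ := Function.ne_iff.1 h0
  have hl' : aeval y (ψ l) ≠ 0 := hl
  have h1 : ∀ i, aeval y (Ψ i) = aeval y (Ψ l) / aeval y (ψ l) * aeval y (ψ i) := fun i => by
    have h2 := hy _ (h i l)
    rw [map_sub, map_mul, map_mul, sub_eq_zero] at h2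
    field_simp
    exact h2
  refine ⟨_, h1, fun w hw => ⟨(dP y w (Ψ l) - aeval y (Ψ l) / aeval y (ψ l) * dP y w (ψ l)) /
    aeval y (ψ l), fun i => ?_⟩⟩
  have h2 := dP_add_pol y w (Ψ i * ψ l - Ψ l * ψ i) (Ψ l * ψ i)
  rw [sub_add_cancel, mem_tsp.1 hw _ (h i l), zero_add, dP_mul_pol, dP_mul_pol, h1 i] at h2
  field_simp at h2 ⊢
  linear_combination h2

/-- Evaluate at generic points (`tr_point`); `prp_val`, `zero_mul_of_hom`, `aeval_mul_of_hom`,
`Inv.pull`, `Inv.pt`, `trans_aev`. -/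
theorem prp_inv (hI : I.IsPrime) (hI' : ∀ P ∈ I, ∀ d, homogeneousComponent d P ∈ I) (hJ : J.IsPrime)
    (h : Inv I J φ ψ) (h' : Inv J I ψ φ) {e : ℕ} (hΨ : Prp J ψ Ψ e) (h0 : ∃ i, Ψ i ∉ J) :
    Inv I J φ Ψ ∧ Inv J I Ψ φ := by
  obtain ⟨i₀, hi₀⟩ := h0
  obtain ⟨i₁, hi₁⟩ := h.ne
  obtain ⟨j₁, hj₁⟩ := h'.ne
  obtain ⟨a, ha⟩ := h.hom
  obtain ⟨M, _, _, x, hx, -⟩ := tr_point I
  obtain ⟨N, _, _, y, hy, -⟩ := tr_point J
  obtain ⟨s, hs, -⟩ := prp_val hΨ.prp (h.zero fun P => (hx P).2) fun e =>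
    hi₁ ((hx _).1 ((trans_aev x φ _).trans (congrFun e i₁)))
  obtain ⟨t, ht, -⟩ := prp_val hΨ.prp (fun P => (hy P).2) fun e =>
    hi₁ (h.map _ ((hy _).1 (congrFun e i₁)))
  have ht0 : t ≠ 0 := fun e => hi₀ ((hy _).1 (by rw [ht, e, zero_mul]))
  have key : ∀ j, aeval y (aeval Ψ (φ j)) = t ^ a * aeval y (aeval ψ (φ j)) := fun j => by
    rw [trans_aev, trans_aev, funext ht, aeval_mul_of_hom (ha j)]
  refine ⟨⟨h.hom, h.map, ⟨i₀, h'.pull hJ (hΨ.hom i₀) hi₀⟩, fun i l => (hx _).1 ?_⟩,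
    ⟨e, hΨ.hom⟩, fun P hP => (hy _).1 ?_, ⟨j₁, fun h1 => ?_⟩, fun i l => (hy _).1 ?_⟩
  · have e1 := (hx _).2 (h.id i l)
    simp only [map_sub, map_mul, trans_aev x, hs] at e1 ⊢
    rw [mul_assoc, mul_assoc, ← mul_sub, e1, mul_zero]
  · rw [trans_aev, funext ht]
    exact zero_mul_of_hom hI' (h'.zero fun P => (hy P).2) t P hP
  · exact mul_ne_zero (pow_ne_zero a ht0) (mt (hy _).1 hj₁) (key j₁ ▸ (hy _).2 h1)
  · have e1 := (hy _).2 (h'.id i l)
    simp only [map_sub, map_mul, key] at e1 ⊢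
    rw [mul_assoc, mul_assoc, ← mul_sub, e1, mul_zero]

/-- The component of degree `n * (d + 1)` of `aeval Ψ P` is `aeval Ψ` of the component of degree `n`
of `P`; `Inv.pull`. -/
theorem pull_mem (hI : I.IsPrime) (hJ : ∀ P ∈ J, ∀ d, homogeneousComponent d P ∈ J)
    (h : Inv I J φ Ψ) {d : ℕ} (hΨ : ∀ i, (Ψ i).IsHomogeneous (d + 1)) {P : MvPolynomial κ k}
    (hP : aeval Ψ P ∈ J) : P ∈ I := by
  rw [← sum_homogeneousComponent P]
  refine I.sum_mem fun n hn => by_contra fun h0 =>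
    h.pull hI (homogeneousComponent_isHomogeneous n P) h0 ?_
  have h1 := hJ _ hP ((d + 1) * n)
  have h2 : ∀ m, homogeneousComponent ((d + 1) * n) (aeval Ψ (homogeneousComponent m P)) =
      if (d + 1) * n = (d + 1) * m then aeval Ψ (homogeneousComponent m P) else 0 := fun m =>
    homogeneousComponent_of_mem ((homogeneousComponent_isHomogeneous m P).aeval Ψ hΨ)
  rw [← sum_homogeneousComponent P, map_sum, map_sum, Finset.sum_eq_single_of_mem n hn
    fun m _ hm => by rw [h2, if_neg fun e => hm (mul_left_cancel₀ d.succ_ne_zero e).symm],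
    h2, if_pos rfl] at h1
  exact h1

/-- `Inv.rank`, `rank_tan`, `tsp_eq`; the two conditions hold off the form
`aeval φ (ψ i) * aeval φ (aeval ψ (φ j))`, which is not in `I` (`Inv.pull`); some variable is not in
`I` (`Inv.map` twice, `Inv.ne`). -/
theorem exists_form (hσ : A.LieBasis σ) (hI : Var I) (h : Inv I A.I φ ψ) (h' : Inv A.I I ψ φ) :
    ∃ H ∉ I, ∀ (F : Type) [Field F] [Algebra k F] (x : κ → F), (∀ P ∈ I, aeval x P = 0) →
      aeval x H ≠ 0 → x ≠ 0 ∧ finrank F (tsp I x) = r + 1 := by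
  obtain ⟨i, hi⟩ := h.ne
  obtain ⟨j, hj⟩ := h'.ne
  obtain ⟨a, ha⟩ := h.hom
  obtain ⟨b, hb⟩ := h'.hom
  refine ⟨X i * aeval φ (ψ i) * aeval φ (aeval ψ (φ j)), fun h0 => ?_, fun F _ _ x hx h0 => ?_⟩
  · rcases hI.isPrime.mem_or_mem h0 with h0 | h0
    · rcases hI.isPrime.mem_or_mem h0 with h0 | h0
      · exact hi (h.map _ (by simpa only [aeval_X] using h'.map _ h0))
      · exact hi h0
    · exact h'.pull A.tr_prime ((ha j).aeval ψ hb) hj h0
  · rw [map_mul, map_mul, aeval_X, mul_ne_zero_iff, mul_ne_zero_iff, trans_aev x φ (aeval _ _)]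
      at h0
    have h1 : x ≠ 0 := fun e => h0.1.1 (congrFun e i)
    obtain ⟨h3, h4⟩ := h.rank hI.hom A.hom h' h1 hx h0.1.2 h0.2
    exact ⟨h1, by rw [h4, tsp_eq, rank_tan hσ h3 (h.zero hx)]⟩

/-- `exists_form`, `exists_pt`. -/
theorem dim_eq' (hσ : A.LieBasis σ) (hI : Var I) (hs : Smooth I g) (h : Inv I A.I φ ψ)
    (h' : Inv A.I I ψ φ) : g = r := by
  obtain ⟨H, h0, h1⟩ := exists_form hσ hI h h'
  obtain ⟨x, hx, h2⟩ := exists_pt hI.isPrime h0
  obtain ⟨h3, h4⟩ := h1 _ x hx h2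
  rw [hs x h3 hx] at h4
  omega

/-- `rep2_min`: some `φ b (x) ≠ 0` divides all, `φ a (x) = φ b (x) * v a`, `v b = 1`. Write
`v a * β a (x) = α a (x)`; then `φ a * β a - φ b * α a ∈ I`, and its derivative along `τ` gives
`dφ a = φ b (x) * w a + dφ b * v a` with `w a = (dα a - v a * dβ a) / β a (x)`. Over `F` use
`trl_scale` with the inverse of `φ b`; `v` is a zero of `A.I` and `w ∈ A.Tan v` by injectivity
(`map_dP`, `dP_comp`); `trl_map`. -/
theorem reg_loc {R F : Type} [CommRing R] [IsLocalRing R] [PreValuationRing R] [Algebra k R]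
    [Field F] [Algebra k F] (f : R →ₐ[k] F) (hf : Function.Injective f) {x τ : κ → R}
    (hk : ∀ P, aeval x P = 0 ↔ P ∈ I)
    (hg : ∀ t : R, ∃ P Q : MvPolynomial κ k, IsUnit (aeval x Q) ∧ t * aeval x Q = aeval x P)
    (hτ : ∀ P ∈ I, dP x τ P = 0) (hφ : ∀ P ∈ A.I, aeval φ P ∈ I) (h0 : ∃ b, φ b ∉ I) :
    ∃ u : ι → R, A.trl (fun b => f (aeval x (φ b))) (fun b => f (dP x τ (φ b))) =
      fun a => f (u a) := by
  obtain ⟨b₀, hb₀⟩ := h0
  obtain ⟨b, hb⟩ := rep2_min (fun a => aeval x (φ a)) Finset.univ ⟨b₀, Finset.mem_univ _⟩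
  choose v hv using fun a => hb a (Finset.mem_univ a)
  have n0 : f (aeval x (φ b)) ≠ 0 := fun h =>
    hb₀ ((hk _).1 (by rw [hv, (map_eq_zero_iff f hf).1 h, zero_mul]))
  have v1 : v b = 1 := hf (mul_left_cancel₀ n0 (by rw [← map_mul, ← hv, map_one, mul_one]))
  choose α β hβ e using fun a => hg (v a)
  have hw : ∀ a, ∃ w, dP x τ (φ a) = aeval x (φ b) * w + dP x τ (φ b) * v a := fun a => by
    have h1 := hτ (φ a * β a - φ b * α a) ((hk _).1 (by
      rw [map_sub, map_mul, map_mul, hv a, ← e, mul_assoc, sub_self]))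
    rw [dP, map_sub, TrivSqZeroExt.snd_sub, ← dP, ← dP, dP_mul_pol, dP_mul_pol, hv a, ← e] at h1
    obtain ⟨c, hc⟩ := (hβ a).exists_right_inv
    exact ⟨(dP x τ (α a) - v a * dP x τ (β a)) * c, by
      linear_combination c * h1 - (dP x τ (φ a) - dP x τ (φ b) * v a) * hc⟩
  choose w hw using hw
  obtain ⟨p, hp⟩ := AV.exists_rep (A := A) (v := fun a => f (aeval x (φ a))) ⟨b, n0.isUnit⟩
    fun P hP => by rw [← comp_aeval_apply, ← bir1_aeval, (hk _).2 (hφ P hP), map_zero]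
  obtain ⟨h1, h2, h3⟩ := trl_scale (w := fun a => f (dP x τ (φ a))) (v' := fun a => f (v a))
    (w' := fun a => f (w a)) (μ := -(f (aeval x (φ b)))⁻¹ ^ 2 * f (dP x τ (φ b))) hp
    (fun P hP => by
      have h : (fun j => aeval (dw x τ) (φ j)) =
          dw (fun j => aeval x (φ j)) (fun j => dP x τ (φ j)) :=
        funext fun j => TrivSqZeroExt.ext (fst_aeval_dw x τ (φ j)) rfl
      rw [← map_dP, dP, ← h, ← bir1_aeval, ← dP, hτ _ (hφ P hP), map_zero])
    (inv_ne_zero n0).isUnit (fun a => by rw [hv a, map_mul, inv_mul_cancel_left₀ n0])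
    fun a => by
      rw [hw a, hv a, map_add, map_mul, map_mul, map_mul]
      field_simp
      ring
  obtain ⟨q, hq⟩ := AV.exists_rep (A := A) (v := v) ⟨b, v1 ▸ isUnit_one⟩ fun P hP =>
    hf (by rw [comp_aeval_apply, h1.zero P hP, map_zero])
  exact ⟨_, h3.symm.trans (AV.trl_map f hq fun P hP => hf (by rw [map_dP, h2 P hP, map_zero]))⟩

/-- `indep_of_rank`, `hartogs`; at the prime `𝔮` take `R = Localization.AtPrime 𝔮` with
`IsLocalization.liftAlgHom` to `F`, `val_of_rank` (`Chart.rank_le`; see `rep1_loc`), `reg_loc`. -/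
theorem reg {B F : Type} [CommRing B] [IsDomain B] [Algebra k B] [Algebra.FiniteType k B] [Field F]
    [Algebra B F] [IsFractionRing B F] [Algebra k F] [IsScalarTower k B F] {x τ : κ → B}
    (hk : ∀ P, aeval x P = 0 ↔ P ∈ I)
    (hg : ∀ t : B, ∃ P Q : MvPolynomial κ k, IsUnit (aeval x Q) ∧ t * aeval x Q = aeval x P)
    {S : Fin (g + 1) → κ} {Δ : MvPolynomial κ k} {c : κ → Fin (g + 1) → MvPolynomial κ k}
    (hC : Chart I S Δ c) (hΔ : IsUnit (aeval x Δ))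
    (hr : g + 1 ≤ finrank F (tsp I fun a => algebraMap B F (x a))) (hτ : ∀ P ∈ I, dP x τ P = 0)
    (hφ : ∀ P ∈ A.I, aeval φ P ∈ I) (h0 : ∃ b, φ b ∉ I) (a : ι) :
    IsIntegral B (A.trl (fun b => algebraMap B F (aeval x (φ b)))
      (fun b => algebraMap B F (dP x τ (φ b))) a) := by
  have := Algebra.FiniteType.isNoetherianRing k B
  have iF := IsFractionRing.injective B F
  obtain ⟨j, hj⟩ := indep_of_rank (fun P hP => (hk P).1
    ((map_eq_zero_iff _ iF).1 ((rep1_ev x P).symm.trans hP))) hr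
  refine hartogs (k := k) (z := fun t => x (j t))
    (AlgebraicIndependent.of_comp (IsScalarTower.toAlgHom k B F) hj) fun 𝔮 _ z' hz' => ?_
  let R := Localization.AtPrime 𝔮
  have iR : Function.Injective (algebraMap B R) :=
    IsLocalization.injective R 𝔮.primeCompl_le_nonZeroDivisors
  have hk' : ∀ P, aeval (fun a => algebraMap B R (x a)) P = 0 ↔ P ∈ I := fun P => by
    rw [rep1_ev, map_eq_zero_iff _ iR, hk]
  have hg' : ∀ t : R, ∃ P Q : MvPolynomial κ k, IsUnit (aeval (fun a => algebraMap B R (x a)) Q) ∧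
      t * aeval (fun a => algebraMap B R (x a)) Q = aeval (fun a => algebraMap B R (x a)) P :=
    fun t => by
    obtain ⟨⟨p, s⟩, e⟩ := IsLocalization.surj 𝔮.primeCompl t
    obtain ⟨P, Q, h1, h2⟩ := hg p
    obtain ⟨P', Q', h3, h4⟩ := hg s
    refine ⟨P * Q', P' * Q, ?_, ?_⟩
    · rw [rep1_ev, map_mul, ← h4, map_mul, map_mul]
      exact ((IsLocalization.map_units R s).mul (h3.map _)).mul (h1.map _)
    · simp only [rep1_ev, map_mul, ← h2, ← h4, ← e]
      ring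
  have hd : ∀ P : MvPolynomial κ k, dP (fun a => algebraMap B R (x a))
      (fun a => algebraMap B R (τ a)) P = algebraMap B R (dP x τ P) := fun P =>
    (map_dP (IsScalarTower.toAlgHom k B R) x τ P).symm
  have := val_of_rank (g := g) (z := fun t => algebraMap B R (z' t)) (fun P hP => (hk' P).2 hP) hg'
    (hC.rank_le (by
      rw [rep1_ev, rep1_ev]
      exact ((hΔ.map _).map _).ne_zero))
    (algebraicIndependent_iff.mpr fun p hp => algebraicIndependent_iff.mp hz' p (by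
      rw [rep1_ev, rep1_ev] at hp
      exact (rep1_ev (F := B ⧸ 𝔮) z' p).trans (Ideal.Quotient.eq_zero_iff_mem.mpr
        ((IsLocalization.AtPrime.to_map_mem_maximal_iff _ 𝔮 _).mp
          ((IsLocalRing.residue_eq_zero_iff _).mp hp)))))
  have hu : ∀ s : 𝔮.primeCompl, IsUnit (IsScalarTower.toAlgHom k B F s) := fun s =>
    IsLocalization.map_units F ⟨s.1, 𝔮.primeCompl_le_nonZeroDivisors s.2⟩
  let f : R →ₐ[k] F := IsLocalization.liftAlgHom hu
  have hf : ∀ b, f (algebraMap B R b) = algebraMap B F b := IsLocalization.lift_eq hu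
  obtain ⟨u, e⟩ := reg_loc f ((IsLocalization.lift_injective_iff hu).2 fun _ _ =>
    iR.eq_iff.trans iF.eq_iff.symm) (τ := fun a => algebraMap B R (τ a)) hk' hg'
    (fun P hP => by rw [hd, hτ P hP, map_zero]) hφ h0
  simp only [rep1_ev, hd, hf] at e
  obtain ⟨⟨p, s⟩, e'⟩ := IsLocalization.surj 𝔮.primeCompl (u a)
  exact ⟨p, s, s.2, by rw [e, ← hf, ← hf, ← map_mul, mul_comm, e']⟩

end Pool.Agent.Lib.MP_651af7_nt.Hy
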